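import Pool.Agent.Helper4.PU.BE

namespace Pool.Agent.Helper4.PU

open Set MeasureTheory Filter Topology
open Pool.Agent.Helper57.Zeta
open Pool.Agent.Helper57.PC
open Pool.Agent.Helper4.PC

lemma pairCount_super (T : ℝ) {a b c : ℝ} (hab : a ≤ b) (hbc : b ≤ c) :
    pairCount T a b + pairCount T b c ≤ pairCount T a c + pairCount T b b := by
  classical
  rw [pairCount_eq, pairCount_eq, pairCount_eq, pairCount_eq, ← Finset.sum_add_distrib, ← Finset.sum_add_distrib]
  apply Finset.sum_le_sum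
  intro p _
  have hm : (0:ℝ) ≤ (mult p.1 : ℝ) * (mult p.2 : ℝ) := by positivity
  simp only [mem_Icc]
  by_cases h1 : a ≤ nd T p ∧ nd T p ≤ b
  · rw [if_pos h1, if_pos (show a ≤ nd T p ∧ nd T p ≤ c from ⟨h1.1, h1.2.trans hbc⟩)]
    by_cases h2 : b ≤ nd T p ∧ nd T p ≤ c
    · rw [if_pos h2, if_pos (show b ≤ nd T p ∧ nd T p ≤ b from ⟨h2.1, h1.2⟩)]
    · rw [if_neg h2]
      split_ifs <;> linarith
  · rw [if_neg h1]
    by_cases h2 : b ≤ nd T p ∧ nd T p ≤ c
    · rw [if_pos h2, if_pos (show a ≤ nd T p ∧ nd T p ≤ c from ⟨hab.trans h2.1, h2.2⟩)]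
      split_ifs <;> linarith
    · rw [if_neg h2]
      split_ifs <;> linarith

lemma long_ind {T C w R : ℝ} (hC : 0 ≤ C) (hw : 0 < w) (hS : 0 ≤ SN T)
    (h : ∀ α β : ℝ, α ≤ β → |α| ≤ R → |β| ≤ R → β - α ≤ w → |pairCount T α β - (β - α) * SN T| ≤ C * SN T) (n : ℕ) :
    ∀ α β : ℝ, α ≤ β → |α| ≤ R → |β| ≤ R → β - α ≤ (n + 1) * w → |pairCount T α β - (β - α) * SN T| ≤ (n + 1) * (2 * C * SN T) := by
  induction n with
  | zero =>
    intro α β h1 h2 h3 h4
    have := h α β h1 h2 h3 (by simpa using h4)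
    have h5 : 0 ≤ C * SN T := by positivity
    refine this.trans ?_
    push_cast
    linarith
  | succ n ih =>
    intro α β h1 h2 h3 h4
    have h5 : 0 ≤ C * SN T := by positivity
    rcases le_or_gt (β - α) w with h6 | h6
    · refine (h α β h1 h2 h3 h6).trans ?_
      push_cast
      have : (0:ℝ) ≤ n := Nat.cast_nonneg n
      nlinarith [mul_nonneg this h5]
    · push_cast at h4
      have hm1 : α ≤ β - w := by linarith
      have hm2 : β - w ≤ β := by linarith
      have hm3 : |β - w| ≤ R := by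
        rw [abs_le] at h2 h3 ⊢
        constructor <;> linarith [h2.1, h3.2]
      have k1 := abs_le.mp (ih α (β - w) hm1 h2 hm3 (by linarith))
      have k2 := abs_le.mp (h (β - w) β hm2 hm3 h3 (by linarith))
      have k3 := abs_le.mp (h (β - w) (β - w) le_rfl hm3 hm3 (by linarith))
      have k4 := pairCount_split T α (β - w) β
      have k5 := pairCount_super T hm1 hm2
      rw [sub_self, zero_mul, sub_zero] at k3
      have e1 : (β - w - α) * SN T + (β - (β - w)) * SN T = (β - α) * SN T := by ring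
      rw [abs_le]
      push_cast
      constructor
      · linarith [k1.1, k2.1, k3.2]
      · linarith [k1.2, k2.2]

theorem long_windows {c C : ℝ} (hc : 0 < c) (hC : 0 < C) (h : ∀ᶠ T : ℝ in atTop, ∀ α β : ℝ, α ≤ β → |α| ≤ T ^ (1/2 : ℝ) → |β| ≤ T ^ (1/2 : ℝ) → β - α ≤ c * Real.log T →
      |pairCount T α β - (β - α) * SN T| ≤ C * SN T) :
    ∀ᶠ T : ℝ in atTop, ∀ α β : ℝ, α ≤ β → |α| ≤ T ^ (1/2 : ℝ) → |β| ≤ T ^ (1/2 : ℝ) →
      |pairCount T α β - (β - α) * SN T| ≤ 2 * C * (1 + 1 / c) * (1 + (β - α) / Real.log T) * SN T := by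
  have hl := Real.tendsto_log_atTop
  filter_upwards [h, eventually_gt_atTop 1, hl.eventually_ge_atTop 1] with T hT hT1 hL α β hab hα hβ
  have hS := SN_pos hT1
  have hL0 : 0 < Real.log T := by linarith
  have hw : 0 < c * Real.log T := by positivity
  have hba : 0 ≤ β - α := by linarith
  have hn := Nat.lt_floor_add_one ((β - α) / (c * Real.log T))
  have hn2 := Nat.floor_le (show 0 ≤ (β - α) / (c * Real.log T) by positivity)
  set n := ⌊(β - α) / (c * Real.log T)⌋₊ with hnd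
  rw [div_lt_iff₀ hw] at hn
  have h1 := long_ind hC.le hw hS.le hT n α β hab hα hβ hn.le
  refine h1.trans ?_
  have e1 : (β - α) / (c * Real.log T) = (1 / c) * ((β - α) / Real.log T) := by field_simp
  rw [e1] at hn2
  have h2 : 0 ≤ (β - α) / Real.log T := by positivity
  have h3 : 0 ≤ 1 / c := by positivity
  have h4 : (n:ℝ) + 1 ≤ (1 + 1 / c) * (1 + (β - α) / Real.log T) := by nlinarith
  calc ((n:ℝ) + 1) * (2 * C * SN T) ≤ ((1 + 1 / c) * (1 + (β - α) / Real.log T)) * (2 * C * SN T) := by gcongr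
    _ = _ := by ring

/-- the error law for all windows up to sqrt T -/
theorem windows_F {C : ℝ} (hC : 0 ≤ C) (h : ∀ᶠ T : ℝ in atTop, ∀ α β : ℝ, α ≤ β → |α| ≤ T ^ (1/2 : ℝ) → |β| ≤ T ^ (1/2 : ℝ) →
      |pairCount T α β - (β - α) * SN T| ≤ C * (1 + (β - α) / Real.log T) * SN T) :
    ∀ᶠ T : ℝ in atTop, ∀ α β : ℝ, 0 < α → α < β → β ≤ T ^ (1/2 : ℝ) →
      |pairCount T α β - SN T * ∫ u in α..β, pcDensity u| ≤ (C + 1) * (1 + (β - α) / Real.log T) * SN T := by
  have hl := Real.tendsto_log_atTop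
  filter_upwards [h, eventually_gt_atTop 1, hl.eventually_ge_atTop 1] with T hT hT1 hL α β hα hαβ hβ
  have hS := SN_pos hT1
  have hL0 : 0 < Real.log T := by linarith
  have h1 := hT α β hαβ.le (by rw [abs_of_pos hα]; linarith) (by rw [abs_of_pos (by linarith)]; exact hβ)
  have h2 := abs_le.mp (int_F_close hα.le hαβ.le)
  have h3 : 0 ≤ (β - α) / Real.log T := div_nonneg (by linarith) hL0.le
  have h4 := abs_le.mp h1
  have e : (C + 1) * (1 + (β - α) / Real.log T) * SN T = C * (1 + (β - α) / Real.log T) * SN T + (1 + (β - α) / Real.log T) * SN T := by ring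
  have h5 : 1 * SN T ≤ (1 + (β - α) / Real.log T) * SN T := by
    apply mul_le_mul_of_nonneg_right _ hS.le
    linarith
  rw [e, abs_le]
  constructor
  · nlinarith [h4.1, h4.2]
  · nlinarith [h4.1, h4.2]

end Pool.Agent.Helper4.PU
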