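import Pool.Agent.Helper4.PU.Fin
import Pool.Agent.Helper4.PC.NumVar

namespace Pool.Agent.Helper4.PU

open Set MeasureTheory Filter Topology
open Pool.Agent.Helper57.LH (WP WP_mono WP_nonneg WP_add WP_smul WP_neg WP_sum one_le_log ic ic_apply pairCount_WP)
open Pool.Agent.Helper57.PC
open Pool.Agent.Helper57.Zeta
open Pool.Agent.Helper4.PC

/-- number variance, uniform -/
theorem nv_U {D : ℝ} {T : ℝ} (hT3 : 3 ≤ T) {X : ℝ} (hX : 1 ≤ X) (h : |∫ β in (0:ℝ)..X, ErU T β| ≤ D * SN T) :
    |(∫ β in (0:ℝ)..X, pairCount T (-β) β) - SN T * (AT T * X ^ 2 + Real.log X / Real.pi ^ 2)| ≤ (D + 5) * SN T := by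
  have hS := SN_pos (T := T) (by linarith)
  have h2 : ∫ β in (0:ℝ)..X, ErU T β = (∫ β in (0:ℝ)..X, pairCount T (-β) β) - SN T * (∫ β in (0:ℝ)..X, (1 + ∫ u in (-β)..β, pcDensity u)) - SN T * (AT T - 1) * X ^ 2 := by
    unfold ErU Er
    have c1 : Continuous (fun β : ℝ => SN T * (1 + ∫ u in (-β)..β, pcDensity u)) := by
      have := intF_cont
      fun_prop
    rw [intervalIntegral.integral_sub ((pc_beta_int T _ _).sub (c1.intervalIntegrable _ _)) (Continuous.intervalIntegrable (by fun_prop) _ _),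
      intervalIntegral.integral_sub (pc_beta_int T _ _) (c1.intervalIntegrable _ _), intervalIntegral.integral_const_mul,
      intervalIntegral.integral_const_mul, intervalIntegral.integral_const_mul, integral_id]
    ring
  rw [h2] at h
  have h3 := nv_pred hX
  set V := ∫ β in (0:ℝ)..X, pairCount T (-β) β
  set P := ∫ β in (0:ℝ)..X, (1 + ∫ u in (-β)..β, pcDensity u)
  have e : V - SN T * (AT T * X ^ 2 + Real.log X / Real.pi ^ 2) = (V - SN T * P - SN T * (AT T - 1) * X ^ 2) + SN T * (P - (X ^ 2 + Real.log X / Real.pi ^ 2)) := by ring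
  rw [e]
  refine (abs_add_le _ _).trans ?_
  rw [abs_mul, abs_of_pos hS]
  calc |V - SN T * P - SN T * (AT T - 1) * X ^ 2| + SN T * |P - (X ^ 2 + Real.log X / Real.pi ^ 2)| ≤ D * SN T + SN T * 5 := by gcongr
    _ = (D + 5) * SN T := by ring

/-- mean law: long windows -/
theorem mean_long {D : ℝ} {T R : ℝ} (hT3 : 3 ≤ T)
    (h : ∀ X : ℝ, 0 ≤ X → X ≤ R → |∫ β in (0:ℝ)..X, ErU T β| ≤ D * SN T) {a X ℓ : ℝ} (ha : 0 < a) (hX : 0 < X) (hℓ : 0 < ℓ) (hR : a + X + ℓ ≤ R) :
    |(∫ s in a..(a + X), pairCount T s (s + ℓ)) - SN T * (∫ s in a..(a + X), ∫ u in s..(s + ℓ), (pcDensity u + (AT T - 1)))| ≤ 2 * D * SN T := by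
  have hS := SN_pos (T := T) (by linarith)
  have b1 := abs_le.mp (h a ha.le (by linarith))
  have b2 := abs_le.mp (h (a + X) (by linarith) (by linarith))
  have b3 := abs_le.mp (h (a + ℓ) (by linarith) (by linarith))
  have b4 := abs_le.mp (h (a + ℓ + X) (by linarith) (by linarith))
  have c1 := intervalIntegral.integral_add_adjacent_intervals (ErU_int T 0 a) (ErU_int T a (a + X))
  have c2 := intervalIntegral.integral_add_adjacent_intervals (ErU_int T 0 (a + ℓ)) (ErU_int T (a + ℓ) (a + ℓ + X))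
  have iS : IntervalIntegrable (fun s => pairCount T (-(s + ℓ)) (s + ℓ)) volume a (a + X) := by
    have := (pc_beta_int T (a + ℓ) (a + X + ℓ)).comp_add_right ℓ
    simpa using this
  have cF : Continuous (fun s => ∫ u in (-(s + ℓ))..(s + ℓ), pcDensity u) := intF_cont.comp (by fun_prop)
  set q := AT T - 1 with hq
  have c3 : ∫ s in (a + ℓ)..(a + ℓ + X), ErU T s = (∫ s in a..(a + X), pairCount T (-(s + ℓ)) (s + ℓ)) - SN T * ∫ s in a..(a + X), (1 + (∫ u in (-(s + ℓ))..(s + ℓ), pcDensity u) + q * (2 * (s + ℓ))) := by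
    have := intervalIntegral.integral_comp_add_right (a := a) (b := a + X) (fun s => ErU T s) ℓ
    have e : a + ℓ + X = a + X + ℓ := by ring
    rw [e, ← this, ← intervalIntegral.integral_const_mul, ← intervalIntegral.integral_sub iS (Continuous.intervalIntegrable (by fun_prop) _ _)]
    congr 1; funext s
    unfold ErU Er
    ring
  have c4 : ∫ s in a..(a + X), ErU T s = (∫ s in a..(a + X), pairCount T (-s) s) - SN T * ∫ s in a..(a + X), (1 + (∫ u in (-s)..s, pcDensity u) + q * (2 * s)) := by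
    rw [← intervalIntegral.integral_const_mul, ← intervalIntegral.integral_sub (pc_beta_int T _ _) (Continuous.intervalIntegrable (by have := intF_cont; fun_prop) _ _)]
    congr 1; funext s
    unfold ErU Er
    ring
  have c5 : (∫ s in a..(a + X), (1 + (∫ u in (-(s + ℓ))..(s + ℓ), pcDensity u) + q * (2 * (s + ℓ)))) - (∫ s in a..(a + X), (1 + (∫ u in (-s)..s, pcDensity u) + q * (2 * s))) =
      2 * ∫ s in a..(a + X), ∫ u in s..(s + ℓ), (pcDensity u + q) := by
    rw [← intervalIntegral.integral_sub (Continuous.intervalIntegrable (by fun_prop) _ _) (Continuous.intervalIntegrable (by have := intF_cont; fun_prop) _ _),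
      ← intervalIntegral.integral_const_mul]
    apply intervalIntegral.integral_congr
    intro s _
    simp only
    rw [intervalIntegral.integral_add (intervalIntegrable_pcDensity _ _) intervalIntegrable_const, intervalIntegral.integral_const]
    rw [int_F_sym, int_F_sym, ← intervalIntegral.integral_add_adjacent_intervals (a := 0) (b := s) (c := s + ℓ) (intervalIntegrable_pcDensity _ _) (intervalIntegrable_pcDensity _ _)]
    simp only [add_sub_cancel_left, smul_eq_mul]
    ring
  have c6 := pos_avg ha.le hX.le hℓ.le T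
  set I := ∫ s in a..(a + X), pairCount T s (s + ℓ) with hI
  set J := ∫ s in a..(a + X), ∫ u in s..(s + ℓ), (pcDensity u + q) with hJ
  have e : 2 * (I - SN T * J) = (∫ s in (a + ℓ)..(a + ℓ + X), ErU T s) - ∫ s in a..(a + X), ErU T s := by
    rw [c3, c4]
    have : 2 * (I - SN T * J) = 2 * I - SN T * (2 * J) := by ring
    rw [this, c6, ← c5]
    ring
  rw [abs_le]
  constructor <;> linarith [b1.1, b1.2, b2.1, b2.2, b3.1, b3.2, b4.1, b4.2]

lemma mean_F_U {a X ℓ q : ℝ} (ha : 0 ≤ a) (hX : 0 ≤ X) (hℓ : 0 ≤ ℓ) :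
    |(∫ s in a..(a + X), ∫ u in s..(s + ℓ), (pcDensity u + q)) - X * ℓ| ≤ ℓ + |q| * X * ℓ := by
  have h1 := mean_F ha hX hℓ
  have e : (∫ s in a..(a + X), ∫ u in s..(s + ℓ), (pcDensity u + q)) = (∫ s in a..(a + X), ∫ u in s..(s + ℓ), pcDensity u) + q * X * ℓ := by
    have e1 : ∀ s, ∫ u in s..(s + ℓ), (pcDensity u + q) = (∫ u in s..(s + ℓ), pcDensity u) + ℓ * q := by
      intro s
      rw [intervalIntegral.integral_add (intervalIntegrable_pcDensity _ _) intervalIntegrable_const, intervalIntegral.integral_const]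
      simp
    simp_rw [e1]
    have cF : Continuous (fun s => ∫ u in s..(s + ℓ), pcDensity u) := by
      have e2 : (fun s : ℝ => ∫ u in s..(s + ℓ), pcDensity u) = fun s => (∫ u in (0:ℝ)..(s + ℓ), pcDensity u) - ∫ u in (0:ℝ)..s, pcDensity u := by
        funext s
        rw [intervalIntegral.integral_interval_sub_left (intervalIntegrable_pcDensity _ _) (intervalIntegrable_pcDensity _ _)]
      rw [e2]
      have h := intervalIntegral.continuous_primitive (μ := volume) (fun a b => intervalIntegrable_pcDensity a b) 0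
      exact (h.comp (by fun_prop)).sub h
    rw [intervalIntegral.integral_add (cF.intervalIntegrable _ _) intervalIntegrable_const, intervalIntegral.integral_const]
    simp only [add_sub_cancel_left, smul_eq_mul]
    ring
  rw [e]
  have e3 : (∫ s in a..(a + X), ∫ u in s..(s + ℓ), pcDensity u) + q * X * ℓ - X * ℓ = ((∫ s in a..(a + X), ∫ u in s..(s + ℓ), pcDensity u) - X * ℓ) + q * X * ℓ := by ring
  rw [e3]
  refine (abs_add_le _ _).trans ?_
  rw [abs_mul, abs_mul, abs_of_nonneg hX, abs_of_nonneg hℓ]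
  linarith

/-- mean law: short windows -/
theorem mean_short {D T : ℝ} (hD : 0 ≤ D) (hT3 : 3 ≤ T)
    (h : ∀ α β : ℝ, α ≤ β → |α| ≤ T ^ (1/2 : ℝ) → |β| ≤ T ^ (1/2 : ℝ) → |pairCount T α β - (β - α) * SN T| ≤ D * (1 + (β - α) / Real.log T) * SN T)
    {a X ℓ : ℝ} (ha : 0 < a) (hX : 0 < X) (hℓ : 0 < ℓ) (hR : a + X + ℓ ≤ T ^ (1/2 : ℝ)) (hXL : X ≤ Real.log T) :
    |(∫ s in a..(a + X), pairCount T s (s + ℓ)) - SN T * (∫ s in a..(a + X), ∫ u in s..(s + ℓ), (pcDensity u + (AT T - 1)))| ≤ (2 * D + 1 + CAT) * ℓ * SN T := by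
  have hT1 : 1 < T := by linarith
  have hS := SN_pos hT1
  have hL0 : 0 < Real.log T := Real.log_pos hT1
  rw [swap_pair hX.le hℓ.le]
  have h2 := abs_le.mp (mean_F_U (q := AT T - 1) ha.le hX.le hℓ.le)
  have hi : ∀ c d : ℝ, IntervalIntegrable (fun s => pairCount T (a + s) (a + s + X)) volume c d := by
    intro c d
    have := (pc_pos_int T X (c + a) (d + a)).comp_add_right a
    simp only [add_sub_cancel_right] at this
    refine this.congr ?_
    intro s _
    simp only
    rw [add_comm s a]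
  have hb : ∀ s ∈ Icc (0:ℝ) ℓ, (X - 2 * D) * SN T ≤ pairCount T (a + s) (a + s + X) ∧ pairCount T (a + s) (a + s + X) ≤ (X + 2 * D) * SN T := by
    intro s hs
    have k1 : |a + s| ≤ T ^ (1/2 : ℝ) := by
      rw [abs_of_pos (by linarith [hs.1])]; linarith [hs.2]
    have k2 : |a + s + X| ≤ T ^ (1/2 : ℝ) := by
      rw [abs_of_pos (by linarith [hs.1])]; linarith [hs.2]
    have h3 := h (a + s) (a + s + X) (by linarith) k1 k2
    have h4 : a + s + X - (a + s) = X := by ring
    rw [h4] at h3
    have h5 : X / Real.log T ≤ 1 := by rw [div_le_one hL0]; exact hXL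
    have h6 : D * (1 + X / Real.log T) * SN T ≤ 2 * D * SN T := by
      have : D * (1 + X / Real.log T) ≤ D * 2 := by
        gcongr
        linarith
      nlinarith
    have h7 := abs_le.mp (h3.trans h6)
    constructor <;> linarith [h7.1, h7.2]
  have hup : ∫ s in (0:ℝ)..ℓ, pairCount T (a + s) (a + s + X) ≤ ∫ s in (0:ℝ)..ℓ, (X + 2 * D) * SN T :=
    intervalIntegral.integral_mono_on hℓ.le (hi _ _) intervalIntegrable_const (fun s hs => (hb s hs).2)
  have hlo : ∫ s in (0:ℝ)..ℓ, (X - 2 * D) * SN T ≤ ∫ s in (0:ℝ)..ℓ, pairCount T (a + s) (a + s + X) :=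
    intervalIntegral.integral_mono_on hℓ.le intervalIntegrable_const (hi _ _) (fun s hs => (hb s hs).1)
  rw [intervalIntegral.integral_const, smul_eq_mul, sub_zero] at hup hlo
  set I := ∫ s in (0:ℝ)..ℓ, pairCount T (a + s) (a + s + X) with hI
  set J := ∫ s in a..(a + X), ∫ u in s..(s + ℓ), (pcDensity u + (AT T - 1)) with hJ
  have h8 : |AT T - 1| * X * ℓ ≤ CAT * ℓ := by
    have := AT_close hT3
    have hCAT := CAT_pos
    have h9 : 0 ≤ CAT / Real.log T := by positivity
    calc |AT T - 1| * X * ℓ ≤ (CAT / Real.log T) * Real.log T * ℓ := by gcongr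
      _ = _ := by field_simp
  have a1 : SN T * (J - X * ℓ) ≤ SN T * ((1 + CAT) * ℓ) := by
    apply mul_le_mul_of_nonneg_left _ hS.le
    linarith [h2.2]
  have a2 : SN T * (-((1 + CAT) * ℓ)) ≤ SN T * (J - X * ℓ) := by
    apply mul_le_mul_of_nonneg_left _ hS.le
    linarith [h2.1]
  rw [abs_le]
  constructor
  · nlinarith
  · nlinarith

/-! the mean square of the density as an integral -/

lemma hasDeriv_sqlog {x : ℝ} (hx : x ≠ 0) : HasDerivAt (fun s : ℝ => s * Real.log s ^ 2 - 2 * (s * Real.log s) + 2 * s) (Real.log x ^ 2) x := by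
  have h1 := Real.hasDerivAt_log hx
  have h2 := (hasDerivAt_id x).mul (h1.pow 2)
  have h3 := ((hasDerivAt_id x).mul h1).const_mul 2
  have h4 := (hasDerivAt_id x).const_mul (2:ℝ)
  have h5 := (h2.sub h3).add h4
  refine h5.congr_deriv ?_
  simp only [id, Pi.pow_apply]
  field_simp
  ring

lemma cont_sqlog : Continuous (fun s : ℝ => s * Real.log s ^ 2 - 2 * (s * Real.log s) + 2 * s) := by
  have h1 : Continuous (fun s : ℝ => s * Real.log s) := Real.continuous_mul_log
  have h2 : Continuous (fun s : ℝ => s * Real.log s ^ 2) := by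
    rw [continuous_iff_continuousAt]
    intro x
    by_cases hx : x = 0
    · rw [hx]
      have e : (fun s : ℝ => s * Real.log s ^ 2) = fun s => (4 * (Real.sqrt |s| * Real.log (Real.sqrt |s|)) ^ 2) * SignType.sign s := by
        funext s
        rcases lt_trichotomy s 0 with hs | hs | hs
        · have h3 : |s| = -s := abs_of_neg hs
          have h4 : Real.log (Real.sqrt |s|) = Real.log s / 2 := by
            rw [Real.log_sqrt (abs_nonneg s), Real.log_abs]
          rw [h4, mul_pow, Real.sq_sqrt (abs_nonneg s), h3, sign_neg hs]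
          simp
          ring
        · rw [hs]; simp
        · have h3 : |s| = s := abs_of_pos hs
          have h4 : Real.log (Real.sqrt |s|) = Real.log s / 2 := by
            rw [Real.log_sqrt (abs_nonneg s), Real.log_abs]
          rw [h4, mul_pow, Real.sq_sqrt (abs_nonneg s), h3, sign_pos hs]
          simp
          ring
      have hc : Continuous (fun s : ℝ => 4 * (Real.sqrt |s| * Real.log (Real.sqrt |s|)) ^ 2) := by
        apply continuous_const.mul
        apply Continuous.pow
        exact Real.continuous_mul_log.comp (Real.continuous_sqrt.comp continuous_abs)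
      have h5 : Tendsto (fun s : ℝ => 4 * (Real.sqrt |s| * Real.log (Real.sqrt |s|)) ^ 2) (𝓝 0) (𝓝 0) := by
        have := hc.tendsto 0
        simpa using this
      rw [e]
      have h7 : Tendsto (fun s : ℝ => (4 * (Real.sqrt |s| * Real.log (Real.sqrt |s|)) ^ 2) * ((SignType.sign s : SignType) : ℝ)) (𝓝 0) (𝓝 0) → ContinuousAt (fun s : ℝ => (4 * (Real.sqrt |s| * Real.log (Real.sqrt |s|)) ^ 2) * ((SignType.sign s : SignType) : ℝ)) 0 := by
        intro h
        unfold ContinuousAt
        simpa using h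
      apply h7
      apply squeeze_zero_norm (a := fun s : ℝ => 4 * (Real.sqrt |s| * Real.log (Real.sqrt |s|)) ^ 2) _ h5
      intro s
      rw [norm_mul]
      have h6 : ‖((SignType.sign s : SignType) : ℝ)‖ ≤ 1 := by
        rcases lt_trichotomy s 0 with hs | hs | hs
        · rw [sign_neg hs]; simp
        · rw [hs]; simp
        · rw [sign_pos hs]; simp
      rw [Real.norm_of_nonneg (by positivity)]
      exact mul_le_of_le_one_right (by positivity) h6
    · exact (continuousAt_id.mul ((Real.continuousAt_log hx).pow 2))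
  exact (h2.sub (continuous_const.mul h1)).add (by fun_prop)

lemma int_sqlog {b : ℝ} (hb : 0 ≤ b) : ∫ s in (0:ℝ)..b, Real.log s ^ 2 = b * Real.log b ^ 2 - 2 * (b * Real.log b) + 2 * b := by
  have hd : ∀ x ∈ Ioo (0:ℝ) b, HasDerivAt (fun s : ℝ => s * Real.log s ^ 2 - 2 * (s * Real.log s) + 2 * s) (Real.log x ^ 2) x :=
    fun x hx => hasDeriv_sqlog hx.1.ne'
  have hi := intervalIntegral.integrableOn_deriv_of_nonneg cont_sqlog.continuousOn hd (fun x _ => sq_nonneg _)
  have := intervalIntegral.integral_eq_sub_of_hasDerivAt_of_le hb cont_sqlog.continuousOn hd (by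
    rw [intervalIntegrable_iff_integrableOn_Ioc_of_le hb]; exact hi)
  rw [this]
  simp

/-- the mean square of the density of the ordinates -/
lemma AT_eq {T : ℝ} (hT : 0 < T) : AT T = (∫ t in (0:ℝ)..T, Real.log (t / (2 * Real.pi)) ^ 2) / (T * Real.log T ^ 2) := by
  have hpi := Real.pi_pos
  have h1 := intervalIntegral.integral_comp_div (a := 0) (b := T) (fun s => Real.log s ^ 2) (show (2 * Real.pi) ≠ 0 by positivity)
  rw [h1, zero_div, int_sqlog (by positivity), smul_eq_mul, Real.log_div hT.ne' (by positivity)]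
  unfold AT
  have e : 2 * Real.pi * (T / (2 * Real.pi) * (Real.log T - Real.log (2 * Real.pi)) ^ 2 -
      2 * (T / (2 * Real.pi) * (Real.log T - Real.log (2 * Real.pi))) + 2 * (T / (2 * Real.pi))) =
      T * ((Real.log T - Real.log (2 * Real.pi)) ^ 2 - 2 * (Real.log T - Real.log (2 * Real.pi)) + 2) := by
    field_simp
  rw [e]
  rw [mul_div_mul_left _ _ hT.ne']

end Pool.Agent.Helper4.PU
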