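import Pool.Agent.Helper4.PC.NVd

namespace Pool.Agent.Helper4.PU

open Set MeasureTheory Filter Topology
open scoped Convolution
open Pool.Agent.Helper57.LH (sc sc_cont sc_even sc_integrable sc_nonneg sc_le_one sc_integral sc_eq sc_zero sc_decay Gm Gm_nonneg Gm_even Gm_integrable Gm_conv gB)
open Pool.Agent.Helper57
open Pool.Agent.Helper4.PC

/-- the weight -/
noncomputable def om (s : ℝ) : ℝ := 1 + Real.sqrt |s|

lemma om_ge (s : ℝ) : 1 ≤ om s := by
  unfold om
  have := Real.sqrt_nonneg |s|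
  linarith

lemma om_pos (s : ℝ) : 0 < om s := lt_of_lt_of_le one_pos (om_ge s)

lemma om_cont : Continuous om := by
  unfold om
  exact continuous_const.add (Real.continuous_sqrt.comp continuous_abs)

lemma om_add (x y : ℝ) : om (x + y) ≤ om x * om y := by
  unfold om
  have h1 : Real.sqrt |x + y| ≤ Real.sqrt |x| + Real.sqrt |y| := by
    refine (Real.sqrt_le_sqrt (abs_add_le x y)).trans ?_
    rw [Real.sqrt_le_left (by positivity)]
    have h2 := Real.sq_sqrt (abs_nonneg x)
    have h3 := Real.sq_sqrt (abs_nonneg y)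
    have h4 := Real.sqrt_nonneg |x|
    have h5 := Real.sqrt_nonneg |y|
    nlinarith [mul_nonneg h4 h5]
  have h4 := Real.sqrt_nonneg |x|
  have h5 := Real.sqrt_nonneg |y|
  nlinarith [mul_nonneg h4 h5]

lemma om_neg (s : ℝ) : om (-s) = om s := by unfold om; rw [abs_neg]

lemma om_mul {B : ℝ} (hB : 1 ≤ B) (s : ℝ) : om (B * s) ≤ B * om s := by
  unfold om
  rw [abs_mul, abs_of_pos (by linarith), Real.sqrt_mul (by linarith)]
  have h1 : Real.sqrt B ≤ B := by
    rw [Real.sqrt_le_left (by linarith)]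
    nlinarith
  have h2 := Real.sqrt_nonneg |s|
  nlinarith

lemma om_mono {x y : ℝ} (h : |x| ≤ |y|) : om x ≤ om y := by
  unfold om
  have := Real.sqrt_le_sqrt h
  linarith

/-- weighted L¹ bound -/
def Wb (M : ℝ) (φ : ℝ → ℝ) : Prop := Integrable (fun s => om s * φ s) ∧ ∫ s, om s * |φ s| ≤ M

lemma Wb.meas {M : ℝ} {φ : ℝ → ℝ} (h : Wb M φ) : AEStronglyMeasurable φ volume := by
  have h1 : φ = fun s => (om s)⁻¹ * (om s * φ s) := by
    funext s
    rw [← mul_assoc, inv_mul_cancel₀ (om_pos s).ne', one_mul]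
  rw [h1]
  exact (om_cont.inv₀ (fun s => (om_pos s).ne')).aestronglyMeasurable.mul h.1.aestronglyMeasurable

lemma Wb.absint {M : ℝ} {φ : ℝ → ℝ} (h : Wb M φ) : Integrable (fun s => om s * |φ s|) := by
  have := h.1.abs
  refine this.congr ?_
  filter_upwards with s
  rw [abs_mul, abs_of_pos (om_pos s)]

lemma Wb.int {M : ℝ} {φ : ℝ → ℝ} (h : Wb M φ) : Integrable φ := by
  refine h.absint.mono' h.meas ?_
  filter_upwards with s
  rw [Real.norm_eq_abs]
  have := om_ge s
  nlinarith [abs_nonneg (φ s)]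

lemma Wb.norm_le {M : ℝ} {φ : ℝ → ℝ} (h : Wb M φ) : ∫ s, |φ s| ≤ M := by
  refine le_trans ?_ h.2
  apply integral_mono h.int.abs h.absint
  intro s
  simp only
  have := om_ge s
  nlinarith [abs_nonneg (φ s)]

lemma Wb.nonneg {M : ℝ} {φ : ℝ → ℝ} (h : Wb M φ) : 0 ≤ M :=
  (integral_nonneg fun _ => abs_nonneg _).trans h.norm_le

lemma Wb.tail {M : ℝ} {φ : ℝ → ℝ} (h : Wb M φ) {K : ℝ} (hK : 0 < K) : ∫ s in (Icc (-K) K)ᶜ, |φ s| ≤ M / Real.sqrt K := by
  have hs : 0 < Real.sqrt K := Real.sqrt_pos.mpr hK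
  rw [le_div_iff₀ hs, ← integral_mul_const]
  refine le_trans ?_ h.2
  refine le_trans ?_ (setIntegral_le_integral (s := (Icc (-K) K)ᶜ) h.absint ?_)
  · apply setIntegral_mono_on (h.int.abs.mul_const _).integrableOn h.absint.integrableOn measurableSet_Icc.compl
    intro s hs'
    have h1 : K ≤ |s| := by
      by_contra hc
      push Not at hc
      exact hs' (abs_le.mp hc.le)
    have h2 := Real.sqrt_le_sqrt h1
    have h3 : Real.sqrt K ≤ om s := by unfold om; linarith
    have := abs_nonneg (φ s)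
    nlinarith
  · filter_upwards with s
    have := om_pos s
    positivity

lemma Wb.mono {M M' : ℝ} {φ : ℝ → ℝ} (h : Wb M φ) (hM : M ≤ M') : Wb M' φ := ⟨h.1, h.2.trans hM⟩

lemma Wb.add {M M' : ℝ} {φ ψ : ℝ → ℝ} (h : Wb M φ) (h' : Wb M' ψ) : Wb (M + M') (fun s => φ s + ψ s) := by
  refine ⟨?_, ?_⟩
  · refine (h.1.add h'.1).congr ?_
    filter_upwards with s
    simp only [Pi.add_apply]; ring
  · have h1 : ∫ s, om s * |φ s + ψ s| ≤ ∫ s, (om s * |φ s| + om s * |ψ s|) := by
      apply integral_mono_of_nonneg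
      · filter_upwards with s
        have := om_pos s
        positivity
      · exact h.absint.add h'.absint
      · filter_upwards with s
        have := om_pos s
        have := abs_add_le (φ s) (ψ s)
        nlinarith
    rw [integral_add h.absint h'.absint] at h1
    linarith [h.2, h'.2]

lemma Wb.smul {M : ℝ} {φ : ℝ → ℝ} (h : Wb M φ) (c : ℝ) : Wb (|c| * M) (fun s => c * φ s) := by
  refine ⟨?_, ?_⟩
  · refine (h.1.const_mul c).congr ?_
    filter_upwards with s
    ring
  · have : ∀ s, om s * |c * φ s| = |c| * (om s * |φ s|) := by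
      intro s; rw [abs_mul]; ring
    simp_rw [this]
    rw [integral_const_mul]
    exact mul_le_mul_of_nonneg_left h.2 (abs_nonneg c)

lemma Wb.sub {M M' : ℝ} {φ ψ : ℝ → ℝ} (h : Wb M φ) (h' : Wb M' ψ) : Wb (M + M') (fun s => φ s - ψ s) := by
  have := h.add (h'.smul (-1))
  rw [abs_neg, abs_one, one_mul] at this
  have e : (fun s => φ s + -1 * ψ s) = fun s => φ s - ψ s := by funext s; ring
  rwa [e] at this

lemma Wb_zero : Wb 0 (fun _ => 0) := ⟨by simp, by simp⟩

lemma Wb_sum {ι : Type*} (s : Finset ι) (M : ι → ℝ) (φ : ι → ℝ → ℝ) (h : ∀ i ∈ s, Wb (M i) (φ i)) :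
    Wb (∑ i ∈ s, M i) (fun u => ∑ i ∈ s, φ i u) := by
  classical
  induction s using Finset.induction_on with
  | empty => simpa using Wb_zero
  | insert a s ha ih =>
    simp only [Finset.sum_insert ha]
    exact (h a (Finset.mem_insert_self a s)).add (ih fun i hi => h i (Finset.mem_insert_of_mem hi))

lemma Wb.neg {M : ℝ} {φ : ℝ → ℝ} (h : Wb M φ) : Wb M (fun s => φ (-s)) := by
  refine ⟨?_, ?_⟩
  · have := h.1.comp_neg
    refine this.congr ?_
    filter_upwards with s
    rw [om_neg]
  · have := integral_neg_eq_self (fun s => om s * |φ s|) volume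
    simp only [om_neg] at this
    rw [this]
    exact h.2

lemma Wb.shift {M : ℝ} {φ : ℝ → ℝ} (h : Wb M φ) (v : ℝ) : Wb (om v * M) (fun s => φ (s - v)) := by
  have i1 : Integrable (fun s => om (s - v) * |φ (s - v)|) := h.absint.comp_sub_right v
  have hle : ∀ s, om s ≤ om v * om (s - v) := by
    intro s
    have := om_add v (s - v)
    rwa [add_sub_cancel] at this
  refine ⟨?_, ?_⟩
  · refine (i1.const_mul (om v)).mono' (om_cont.aestronglyMeasurable.mul (h.int.comp_sub_right v).aestronglyMeasurable) ?_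
    filter_upwards with s
    rw [norm_mul, Real.norm_of_nonneg (om_pos s).le, Real.norm_eq_abs]
    have := hle s
    have := abs_nonneg (φ (s - v))
    nlinarith
  · have h1 : ∫ s, om s * |φ (s - v)| ≤ ∫ s, om v * (om (s - v) * |φ (s - v)|) := by
      apply integral_mono_of_nonneg
      · filter_upwards with s
        have := om_pos s
        positivity
      · exact i1.const_mul _
      · filter_upwards with s
        have := hle s
        have := abs_nonneg (φ (s - v))
        nlinarith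
    rw [integral_const_mul, integral_sub_right_eq_self (fun s => om s * |φ s|) v] at h1
    have := om_pos v
    nlinarith [h.2]

lemma Wb.scale {M : ℝ} {φ : ℝ → ℝ} (h : Wb M φ) {B : ℝ} (hB : 1 ≤ B) : Wb (B ^ 2 * M) (fun s => φ (s / B)) := by
  have hB0 : 0 < B := by linarith
  have i1 : Integrable (fun s => om (s / B) * |φ (s / B)|) := h.absint.comp_div hB0.ne'
  have hle : ∀ s, om s ≤ B * om (s / B) := by
    intro s
    have := om_mul hB (s / B)
    rwa [mul_div_cancel₀ _ hB0.ne'] at this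
  refine ⟨?_, ?_⟩
  · refine (i1.const_mul B).mono' (om_cont.aestronglyMeasurable.mul (h.int.comp_div hB0.ne').aestronglyMeasurable) ?_
    filter_upwards with s
    rw [norm_mul, Real.norm_of_nonneg (om_pos s).le, Real.norm_eq_abs]
    have := hle s
    have := abs_nonneg (φ (s / B))
    nlinarith
  · have h1 : ∫ s, om s * |φ (s / B)| ≤ ∫ s, B * (om (s / B) * |φ (s / B)|) := by
      apply integral_mono_of_nonneg
      · filter_upwards with s
        have := om_pos s
        positivity
      · exact i1.const_mul _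
      · filter_upwards with s
        have := hle s
        have := abs_nonneg (φ (s / B))
        nlinarith
    rw [integral_const_mul, Measure.integral_comp_div (fun s => om s * |φ s|) B, abs_of_pos hB0, smul_eq_mul] at h1
    have h2 : B * (B * ∫ s, om s * |φ s|) ≤ B * (B * M) := by
      gcongr
      exact h.2
    calc ∫ s, om s * |φ (s / B)| ≤ B * (B * M) := h1.trans h2
      _ = _ := by ring

lemma Wb_of_le {M : ℝ} {φ ψ : ℝ → ℝ} (h : Wb M ψ) (hm : AEStronglyMeasurable φ volume) (hle : ∀ s, |φ s| ≤ |ψ s|) : Wb M φ := by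
  refine ⟨?_, ?_⟩
  · refine h.absint.mono' (om_cont.aestronglyMeasurable.mul hm) ?_
    filter_upwards with s
    rw [norm_mul, Real.norm_of_nonneg (om_pos s).le, Real.norm_eq_abs]
    exact mul_le_mul_of_nonneg_left (hle s) (om_pos s).le
  · refine le_trans ?_ h.2
    apply integral_mono_of_nonneg
    · filter_upwards with s
      have := om_pos s
      positivity
    · exact h.absint
    · filter_upwards with s
      exact mul_le_mul_of_nonneg_left (hle s) (om_pos s).le

lemma Wb.conv {M M' : ℝ} {φ ψ : ℝ → ℝ} (h : Wb M φ) (h' : Wb M' ψ) : Wb (M * M') (φ ⋆[ContinuousLinearMap.mul ℝ ℝ, volume] ψ) := by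
  have hM := h.nonneg
  have hM' := h'.nonneg
  set F : ℝ → ℝ := fun s => om s * |φ s| with hF
  set G : ℝ → ℝ := fun s => om s * |ψ s| with hG
  have iF : Integrable F := h.absint
  have iG : Integrable G := h'.absint
  have iFG : Integrable (F ⋆[ContinuousLinearMap.mul ℝ ℝ, volume] G) := Integrable.integrable_convolution _ iF iG
  have iab : Integrable ((fun s => |φ s|) ⋆[ContinuousLinearMap.mul ℝ ℝ, volume] (fun s => |ψ s|)) :=
    Integrable.integrable_convolution _ h.int.abs h'.int.abs
  have icv : Integrable (φ ⋆[ContinuousLinearMap.mul ℝ ℝ, volume] ψ) := Integrable.integrable_convolution _ h.int h'.int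
  have hae : ∀ᵐ x : ℝ, om x * |(φ ⋆[ContinuousLinearMap.mul ℝ ℝ, volume] ψ) x| ≤ (F ⋆[ContinuousLinearMap.mul ℝ ℝ, volume] G) x := by
    have h1 := Integrable.ae_convolution_exists (L := ContinuousLinearMap.mul ℝ ℝ) (μ := (volume : Measure ℝ)) (ν := volume) iF iG
    filter_upwards [h1] with x hx
    have h2 : Integrable (fun t => F t * G (x - t)) := hx
    rw [convolution_def, convolution_def]
    simp only [ContinuousLinearMap.mul_apply']
    have h3 : |∫ t, φ t * ψ (x - t)| ≤ ∫ t, |φ t * ψ (x - t)| := norm_integral_le_integral_norm (μ := volume) (fun t => φ t * ψ (x - t))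
    have hox := om_pos x
    calc om x * |∫ t, φ t * ψ (x - t)| ≤ om x * ∫ t, |φ t * ψ (x - t)| := by gcongr
      _ = ∫ t, om x * |φ t * ψ (x - t)| := by rw [integral_const_mul]
      _ ≤ ∫ t, F t * G (x - t) := by
          apply integral_mono_of_nonneg
          · filter_upwards with t
            positivity
          · exact h2
          · filter_upwards with t
            rw [hF, hG]
            simp only
            rw [abs_mul]
            have h4 := om_add t (x - t)
            rw [add_sub_cancel] at h4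
            have h5 := mul_nonneg (abs_nonneg (φ t)) (abs_nonneg (ψ (x - t)))
            nlinarith
  refine ⟨?_, ?_⟩
  · refine iFG.mono' (om_cont.aestronglyMeasurable.mul icv.aestronglyMeasurable) ?_
    filter_upwards [hae] with x hx
    rwa [norm_mul, Real.norm_of_nonneg (om_pos x).le, Real.norm_eq_abs]
  · have h1 : ∫ x, om x * |(φ ⋆[ContinuousLinearMap.mul ℝ ℝ, volume] ψ) x| ≤ ∫ x, (F ⋆[ContinuousLinearMap.mul ℝ ℝ, volume] G) x := by
      apply integral_mono_of_nonneg
      · filter_upwards with s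
        have := om_pos s
        positivity
      · exact iFG
      · exact hae
    rw [integral_convolution _ iF iG] at h1
    simp only [ContinuousLinearMap.mul_apply'] at h1
    refine h1.trans ?_
    have h2 : 0 ≤ ∫ x, F x := integral_nonneg fun s => mul_nonneg (om_pos s).le (abs_nonneg _)
    have h3 : 0 ≤ ∫ x, G x := integral_nonneg fun s => mul_nonneg (om_pos s).le (abs_nonneg _)
    exact mul_le_mul h.2 h'.2 h3 hM

/-! base functions -/

lemma om_le_rpow (s : ℝ) : om s ≤ 2 * (1 + |s|) ^ (1/2 : ℝ) := by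
  unfold om
  rw [← Real.sqrt_eq_rpow]
  have h1 : Real.sqrt |s| ≤ Real.sqrt (1 + |s|) := Real.sqrt_le_sqrt (by linarith)
  have h2 : 1 ≤ Real.sqrt (1 + |s|) := by
    rw [Real.one_le_sqrt]
    linarith [abs_nonneg s]
  linarith

lemma exists_Wb_sc : ∃ W : ℝ, 0 < W ∧ Wb W sc := by
  have hi : Integrable (fun s : ℝ => (1 + ‖s‖) ^ (-(3/2) : ℝ)) := integrable_one_add_norm (by
    simp only [Module.finrank_self, Nat.cast_one]; norm_num)
  have hle : ∀ s, om s * |sc s| ≤ 20 * (1 + ‖s‖) ^ (-(3/2) : ℝ) := by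
    intro s
    have h1 := om_le_rpow s
    have h2 : sc s ≤ 10 * (1 + |s|) ^ (-(2) : ℝ) := by
      refine (sc_decay s).trans ?_
      unfold Pool.Agent.Helper57.LH.Kd
      have hpi := Real.pi_gt_three
      have h3 : (1 + |s|) ^ 2 ≤ 2 * (1 + (2 * Real.pi * s) ^ 2) := by
        have h4 : s ^ 2 ≤ (2 * Real.pi * s) ^ 2 := by
          rw [mul_pow]
          have : 1 ≤ (2 * Real.pi) ^ 2 := by nlinarith
          nlinarith [sq_nonneg s]
        nlinarith [sq_abs s, sq_nonneg (1 - |s|)]
      have h5 : (1 + |s|) ^ (-(2) : ℝ) = ((1 + |s|) ^ 2)⁻¹ := by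
        rw [Real.rpow_neg (by positivity)]
        norm_num
      rw [h5]
      have h6 : (1 + (2 * Real.pi * s) ^ 2)⁻¹ ≤ 2 * ((1 + |s|) ^ 2)⁻¹ := by
        rw [← div_eq_mul_inv, inv_eq_one_div, div_le_div_iff₀ (by positivity) (by positivity)]
        linarith
      linarith
    have h0 := sc_nonneg s
    rw [abs_of_nonneg h0, Real.norm_eq_abs]
    have h7 : (1 + |s|) ^ (-(3/2) : ℝ) = (1 + |s|) ^ (1/2 : ℝ) * (1 + |s|) ^ (-(2) : ℝ) := by
      rw [← Real.rpow_add (by positivity)]
      norm_num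
    rw [h7]
    calc om s * sc s ≤ (2 * (1 + |s|) ^ (1/2 : ℝ)) * (10 * (1 + |s|) ^ (-(2) : ℝ)) := by gcongr
      _ = _ := by ring
  have i1 : Integrable (fun s => om s * sc s) := by
    refine (hi.const_mul 20).mono' (om_cont.mul sc_cont).aestronglyMeasurable ?_
    filter_upwards with s
    rw [norm_mul, Real.norm_of_nonneg (om_pos s).le, Real.norm_eq_abs]
    exact hle s
  refine ⟨(∫ s, om s * |sc s|) + 1, ?_, i1, by linarith⟩
  have : 0 ≤ ∫ s, om s * |sc s| := integral_nonneg fun s => mul_nonneg (om_pos s).le (abs_nonneg _)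
  linarith

/-- the basic constant -/
noncomputable def W0 : ℝ := exists_Wb_sc.choose

lemma W0_pos : 0 < W0 := exists_Wb_sc.choose_spec.1

lemma Wb_sc : Wb W0 sc := exists_Wb_sc.choose_spec.2

lemma Wb_scsq : Wb W0 (fun x => sc x ^ 2) := by
  apply Wb_of_le Wb_sc
  · apply Continuous.aestronglyMeasurable
    exact sc_cont.pow 2
  · intro s
    have h1 := sc_nonneg s
    have h2 := sc_le_one s
    rw [abs_of_nonneg h1, abs_of_nonneg (sq_nonneg (sc s))]
    nlinarith

lemma Wb_Gm : Wb (W0 ^ 2) Gm := by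
  rw [Gm_conv, pow_two]
  exact Wb_sc.conv Wb_sc

lemma Wb_Gs {B : ℝ} (hB : 1 ≤ B) (v : ℝ) : Wb (om v * (B ^ 2 * W0 ^ 2)) (fun s => Gm ((s - v) / B)) :=
  (Wb_Gm.scale hB).shift v

lemma Wb_gB {B : ℝ} (hB : 1 ≤ B) : Wb (B ^ 2 * W0 ^ 2) (gB B) := Wb_Gm.scale hB

lemma Wb_kk {B : ℝ} (hB : 1 ≤ B) : Wb (B * W0 / g0) (kk B) := by
  have hg := g0_pos
  have h := (Wb_scsq.scale hB).smul (1 / (g0 * B))
  rw [abs_of_pos (by positivity)] at h
  have e : 1 / (g0 * B) * (B ^ 2 * W0) = B * W0 / g0 := by field_simp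
  rw [e] at h
  exact h

lemma Wb_tri : Wb 4 tri := by
  have hle : ∀ s, om s * |tri s| ≤ (Icc (-1:ℝ) 1).indicator (fun _ => (2:ℝ)) s := by
    intro s
    by_cases h : s ∈ Icc (-1:ℝ) 1
    · rw [indicator_of_mem h, abs_of_nonneg (tri_nonneg s)]
      have h1 : om s ≤ 2 := by
        unfold om
        have : Real.sqrt |s| ≤ 1 := by
          rw [Real.sqrt_le_one]
          exact abs_le.mpr h
        linarith
      have := tri_le_one s
      have := tri_nonneg s
      have := om_pos s
      nlinarith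
    · rw [indicator_of_notMem h, tri_zero_of]
      · simp
      · by_contra hc
        push Not at hc
        exact h (abs_le.mp hc.le)
  have hi : Integrable ((Icc (-1:ℝ) 1).indicator (fun _ => (2:ℝ))) := by
    rw [integrable_indicator_iff measurableSet_Icc]
    exact integrableOn_const (by simp)
  refine ⟨?_, ?_⟩
  · refine hi.mono' (om_cont.mul tri_cont).aestronglyMeasurable ?_
    filter_upwards with s
    rw [norm_mul, Real.norm_of_nonneg (om_pos s).le, Real.norm_eq_abs]
    exact hle s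
  · have h1 : ∫ s, om s * |tri s| ≤ ∫ s, (Icc (-1:ℝ) 1).indicator (fun _ => (2:ℝ)) s := by
      apply integral_mono_of_nonneg
      · filter_upwards with s
        have := om_pos s
        positivity
      · exact hi
      · filter_upwards with s; exact hle s
    refine h1.trans ?_
    rw [integral_indicator measurableSet_Icc, setIntegral_const]
    norm_num [Measure.real]

lemma Wb_Tr {X : ℝ} (hX : 1 ≤ X) : Wb (4 * X ^ 3) (Tr X) := by
  have h := (Wb_tri.scale hX).smul X
  rw [abs_of_pos (by linarith)] at h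
  refine Wb.mono h (le_of_eq (by ring))

lemma Wb_Sw {α β R : ℝ} (hab : α ≤ β) (h1 : |α| ≤ R) (h2 : |β| ≤ R) : Wb ((β - α) * om R) (Sw α β) := by
  have hle : ∀ s, om s * |Sw α β s| ≤ om R * Sw α β s := by
    intro s
    unfold Sw
    by_cases h : s ∈ Icc α β
    · rw [indicator_of_mem h, abs_one]
      have h3 : |s| ≤ |R| := by
        rw [abs_of_nonneg ((abs_nonneg α).trans h1)]
        rw [abs_le] at h1 h2 ⊢
        exact ⟨by linarith [h.1, h1.1], by linarith [h.2, h2.2]⟩
      have := om_mono h3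
      linarith
    · rw [indicator_of_notMem h, abs_zero]
      simp
  have hi := Sw_integrable α β
  refine ⟨?_, ?_⟩
  · refine (hi.const_mul (om R)).mono' (om_cont.aestronglyMeasurable.mul hi.aestronglyMeasurable) ?_
    filter_upwards with s
    rw [norm_mul, Real.norm_of_nonneg (om_pos s).le, Real.norm_eq_abs]
    exact hle s
  · have h3 : ∫ s, om s * |Sw α β s| ≤ ∫ s, om R * Sw α β s := by
      apply integral_mono_of_nonneg
      · filter_upwards with s
        have := om_pos s
        positivity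
      · exact hi.const_mul _
      · filter_upwards with s; exact hle s
    rw [integral_const_mul, Sw_integral hab] at h3
    linarith

lemma Wb_Wf {B α β R : ℝ} (hB : 1 ≤ B) (hab : α ≤ β) (h1 : |α| ≤ R) (h2 : |β| ≤ R) :
    Wb ((β - α) * om R * (B * W0 / g0)) (Wf B α β) := by
  rw [Wf_conv]
  exact (Wb_Sw hab h1 h2).conv (Wb_kk hB)

lemma Wb_CT_Aw {B α β R : ℝ} (hB : 1 ≤ B) (hab : α ≤ β) (h1 : |α| ≤ R) (h2 : |β| ≤ R) :
    Wb ((β - α) * om R * (B * W0 / g0)) (CT (Aw B α β)) := by
  have e : CT (Aw B α β) = fun u => (1 / 2) * (Wf B α β u + Wf B α β (-u)) := funext (CT_Aw (by linarith) α β)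
  rw [e]
  have h := Wb_Wf hB hab h1 h2
  have h3 := (h.add h.neg).smul (1 / 2)
  rw [abs_of_pos (by norm_num)] at h3
  refine h3.mono (le_of_eq (by ring))

lemma Wb_CT_AX {B X : ℝ} (hB : 1 ≤ B) (hX : 1 ≤ X) : Wb (4 * X ^ 3 * (B * W0 / g0)) (CT (AX B X)) := by
  have h : CT (AX B X) = (Tr X ⋆[ContinuousLinearMap.mul ℝ ℝ, volume] kk B) := by
    funext u
    rw [CT_AX (by linarith) (by linarith), convolution_def]
    rfl
  rw [h]
  exact (Wb_Tr hX).conv (Wb_kk hB)

lemma Wb_CT_Mk {X B : ℝ} (hB : 1 ≤ B) : Wb (2 * om X * (B ^ 2 * W0 ^ 2)) (CT (Mk X B)) := by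
  have h : CT (Mk X B) = fun u => Gm (u / B) - (1 / 2) * (Gm ((u - X) / B) + Gm ((u - -X) / B)) := by
    funext u
    rw [CT_Mk (by linarith), sub_neg_eq_add]
  rw [h]
  have h1 := (Wb_gB hB).sub (((Wb_Gs hB X).add (Wb_Gs hB (-X))).smul (1 / 2))
  rw [abs_of_pos (by norm_num), om_neg] at h1
  refine Wb.mono h1 ?_
  have := om_ge X
  have h2 : 0 ≤ B ^ 2 * W0 ^ 2 := by positivity
  nlinarith

end Pool.Agent.Helper4.PU
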