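import Pool.Agent.Helper4.PU.Loc
import Pool.Agent.Helper4.PU.Wt

namespace Pool.Agent.Helper4.PU

open Set MeasureTheory Filter Topology
open Pool.Agent.Helper57.Zeta
open Pool.Agent.Helper57.PC
open Pool.Agent.Helper57.LH (WP CLA CLA_pos one_le_log Gm gB log_pow_le NT_le_ev)
open Pool.Agent.Helper4.PC

/-- the mean square of the density, relative to log T -/
noncomputable def AT (T : ℝ) : ℝ :=
  ((Real.log T - Real.log (2 * Real.pi)) ^ 2 - 2 * (Real.log T - Real.log (2 * Real.pi)) + 2) / Real.log T ^ 2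

/-- Riemann-von Mangoldt with error O(T/log T) -/
def NLaw (C : ℝ) : Prop := ∀ᶠ T : ℝ in atTop,
  |NT T - SN T * (1 - (1 + Real.log (2 * Real.pi)) / Real.log T)| ≤ C * (SN T / Real.log T ^ 2)

noncomputable def ell : ℝ := Real.log (2 * Real.pi)

lemma ell_nonneg : 0 ≤ ell := Real.log_nonneg (by linarith [Real.pi_gt_three])

noncomputable def CQ (C : ℝ) : ℝ := 2 * C + (ell ^ 2 + 2 * ell + 2) + 1

/-- the quadratic form and the pair sum, uniformly -/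
theorem QQ_unif {C : ℝ} (hC : 0 ≤ C) (hN : NLaw C) : ∀ᶠ T : ℝ in atTop, ∀ (φ : ℝ → ℝ) (M D : ℝ), Continuous φ → (∀ x, |φ x| ≤ D) → Wb M φ → M ≤ T ^ (3/10 : ℝ) →
    |QQ (muT T) (nuT T) φ - (WP T φ - SN T * AT T * ∫ s, φ s)| ≤ CQ C * (SN T / Real.log T ^ 2) * (1 + |∫ s, φ s|) := by
  have hCLA := CLA_pos
  have hpi := Real.pi_pos
  have hpi4 := Real.pi_lt_four
  have hl := Real.tendsto_log_atTop
  filter_upwards [hN, eventually_ge_atTop (3:ℝ), hl.eventually_ge_atTop 100,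
    log_pow_le (2 * Real.pi * (90 * CLA + 5)) 2 (s := 29/30) (by norm_num), NT_le_ev, log_pow_le 1 0 (s := 2/3) (by norm_num),
    log_pow_le 1 2 (s := 2/3) (by norm_num)] with T g1 g2 g3 g4 g5 g6 g7 φ M D hc hb hW hM
  have hT1 : 1 < T := by linarith
  have hT0 : 0 < T := by linarith
  obtain ⟨L, hL⟩ : ∃ L, L = Real.log T := ⟨_, rfl⟩
  have hS := SN_pos hT1
  have hSe : SN T = T * L / (2 * Real.pi) := by rw [hL]; rfl
  rw [← hL] at g1 g3 g4 g5 g6 g7 ⊢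
  have hL0 : 0 < L := by linarith
  have hM0 := hW.nonneg
  have hK0 : 0 < T ^ (2/3 : ℝ) := by positivity
  have hK1 : 1 ≤ T ^ (2/3 : ℝ) := Real.one_le_rpow (by linarith) (by norm_num)
  have hsq : Real.sqrt (T ^ (2/3 : ℝ)) = T ^ (1/3 : ℝ) := by
    rw [Real.sqrt_eq_rpow, ← Real.rpow_mul hT0.le]
    norm_num
  have hKT : 2 * Real.pi * T ^ (2/3 : ℝ) / Real.log T ≤ T := by
    rw [← hL, div_le_iff₀ hL0]
    have h1 : T ^ (2/3 : ℝ) ≤ T := by simpa using g6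
    calc 2 * Real.pi * T ^ (2/3 : ℝ) ≤ 2 * 4 * T := by gcongr
      _ ≤ T * L := by nlinarith
  have herr := QQ_err g2 hK0 hKT hW.int hc hb (hW.tail hK0) hW.norm_le
  rw [hsq, ← hL] at herr
  -- bound of the error
  have hbd : M / T ^ (1/3 : ℝ) * (2 * NT T + SN T) + M * (10 * CLA * (2 * Real.pi * T ^ (2/3 : ℝ) + L) + 2 * T ^ (2/3 : ℝ)) ≤ SN T / L ^ 2 := by
    have e1 : T / T ^ (1/3 : ℝ) = T ^ (2/3 : ℝ) := by
      rw [div_eq_iff (by positivity), ← Real.rpow_add hT0]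
      norm_num
    have h1 : 2 * NT T + SN T ≤ 3 * (T * L) := by
      have : SN T ≤ T * L := by
        rw [hSe]
        apply div_le_self (by positivity)
        linarith [Real.pi_gt_three]
      linarith
    have h2 : M / T ^ (1/3 : ℝ) * (2 * NT T + SN T) ≤ M * (3 * L * T ^ (2/3 : ℝ)) := by
      calc M / T ^ (1/3 : ℝ) * (2 * NT T + SN T) ≤ M / T ^ (1/3 : ℝ) * (3 * (T * L)) := by
            apply mul_le_mul_of_nonneg_left h1 (by positivity)
        _ = M * (3 * L * (T / T ^ (1/3 : ℝ))) := by ring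
        _ = _ := by rw [e1]
    have h3 : 10 * CLA * (2 * Real.pi * T ^ (2/3 : ℝ) + L) + 2 * T ^ (2/3 : ℝ) ≤ (90 * CLA + 2) * L * T ^ (2/3 : ℝ) := by
      have a1 : 2 * Real.pi * T ^ (2/3 : ℝ) ≤ 8 * (L * T ^ (2/3 : ℝ)) := by
        calc 2 * Real.pi * T ^ (2/3 : ℝ) ≤ 2 * 4 * (1 * T ^ (2/3 : ℝ)) := by
              rw [one_mul]; gcongr
          _ ≤ 8 * (L * T ^ (2/3 : ℝ)) := by
              have : (1:ℝ) ≤ L := by linarith
              nlinarith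
      have a2 : L ≤ L * T ^ (2/3 : ℝ) := le_mul_of_one_le_right hL0.le hK1
      have a3 : T ^ (2/3 : ℝ) ≤ L * T ^ (2/3 : ℝ) := le_mul_of_one_le_left hK0.le (by linarith)
      calc 10 * CLA * (2 * Real.pi * T ^ (2/3 : ℝ) + L) + 2 * T ^ (2/3 : ℝ) ≤ 10 * CLA * (8 * (L * T ^ (2/3 : ℝ)) + L * T ^ (2/3 : ℝ)) + 2 * (L * T ^ (2/3 : ℝ)) := by
            gcongr
        _ = _ := by ring
    have h4 : M / T ^ (1/3 : ℝ) * (2 * NT T + SN T) + M * (10 * CLA * (2 * Real.pi * T ^ (2/3 : ℝ) + L) + 2 * T ^ (2/3 : ℝ)) ≤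
        M * ((90 * CLA + 5) * L * T ^ (2/3 : ℝ)) := by
      calc M / T ^ (1/3 : ℝ) * (2 * NT T + SN T) + M * (10 * CLA * (2 * Real.pi * T ^ (2/3 : ℝ) + L) + 2 * T ^ (2/3 : ℝ))
          ≤ M * (3 * L * T ^ (2/3 : ℝ)) + M * ((90 * CLA + 2) * L * T ^ (2/3 : ℝ)) := by
            gcongr
        _ = _ := by ring
    refine h4.trans ?_
    have h5 : M * ((90 * CLA + 5) * L * T ^ (2/3 : ℝ)) ≤ T ^ (3/10 : ℝ) * ((90 * CLA + 5) * L * T ^ (2/3 : ℝ)) := by gcongr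
    refine h5.trans ?_
    have e2 : T ^ (3/10 : ℝ) * T ^ (2/3 : ℝ) = T ^ (29/30 : ℝ) := by
      rw [← Real.rpow_add hT0]; norm_num
    have e3 : T ^ (3/10 : ℝ) * ((90 * CLA + 5) * L * T ^ (2/3 : ℝ)) = (90 * CLA + 5) * L * T ^ (29/30 : ℝ) := by
      rw [← e2]; ring
    rw [e3, hSe, le_div_iff₀ (by positivity), le_div_iff₀ (by positivity)]
    calc (90 * CLA + 5) * L * T ^ (29/30 : ℝ) * L ^ 2 * (2 * Real.pi) = L * (2 * Real.pi * (90 * CLA + 5) * L ^ 2 * T ^ (29/30 : ℝ)) := by ring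
      _ ≤ L * T := by gcongr
      _ = T * L := by ring
  -- the main term
  have hmain : |(2 * NT T - SN T) - SN T * AT T| ≤ (2 * C + (ell ^ 2 + 2 * ell + 2)) * (SN T / L ^ 2) := by
    have e4 : (2 * NT T - SN T) - SN T * AT T = 2 * (NT T - SN T * (1 - (1 + ell) / L)) - (ell ^ 2 + 2 * ell + 2) * (SN T / L ^ 2) := by
      unfold AT
      rw [← hL]
      change (2 * NT T - SN T) - SN T * (((L - ell) ^ 2 - 2 * (L - ell) + 2) / L ^ 2) = _
      field_simp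
      ring
    rw [e4]
    refine (abs_sub _ _).trans ?_
    have h1 : |2 * (NT T - SN T * (1 - (1 + ell) / L))| ≤ 2 * (C * (SN T / L ^ 2)) := by
      rw [abs_mul, abs_of_pos (by norm_num : (0:ℝ) < 2)]
      exact mul_le_mul_of_nonneg_left g1 (by norm_num)
    have h2 : |(ell ^ 2 + 2 * ell + 2) * (SN T / L ^ 2)| = (ell ^ 2 + 2 * ell + 2) * (SN T / L ^ 2) := by
      apply abs_of_nonneg
      have := ell_nonneg
      positivity
    rw [h2]
    linarith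
  set I := ∫ s, φ s with hI
  have e5 : QQ (muT T) (nuT T) φ - (WP T φ - SN T * AT T * I) = (QQ (muT T) (nuT T) φ - (WP T φ - (2 * NT T - SN T) * I)) - ((2 * NT T - SN T) - SN T * AT T) * I := by ring
  rw [e5]
  refine (abs_sub _ _).trans ?_
  rw [abs_mul]
  have h6 : |(2 * NT T - SN T) - SN T * AT T| * |I| ≤ (2 * C + (ell ^ 2 + 2 * ell + 2)) * (SN T / L ^ 2) * |I| := by
    gcongr
  have h7 := herr.trans hbd
  have h8 : 0 ≤ SN T / L ^ 2 := by positivity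
  have h9 : 0 ≤ (SN T / L ^ 2) * |I| := mul_nonneg h8 (abs_nonneg I)
  have h10 : 0 ≤ (2 * C + (ell ^ 2 + 2 * ell + 2)) * (SN T / L ^ 2) := by
    have := ell_nonneg
    positivity
  unfold CQ
  have e6 : (2 * C + (ell ^ 2 + 2 * ell + 2) + 1) * (SN T / L ^ 2) * (1 + |I|) =
    (2 * C + (ell ^ 2 + 2 * ell + 2)) * (SN T / L ^ 2) * |I| + (2 * C + (ell ^ 2 + 2 * ell + 2)) * (SN T / L ^ 2) + SN T / L ^ 2 + (SN T / L ^ 2) * |I| := by ring
  rw [e6]
  linarith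

end Pool.Agent.Helper4.PU
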