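import Pool.Agent.Helper4.PU.Asy
import Pool.Agent.Helper4.PC.Unif
import Pool.Agent.Helper57.LS.Bridge

namespace Pool.Agent.Helper4.PU

open Set MeasureTheory Filter Topology
open Pool.Agent.Helper57.Zeta
open Pool.Agent.Helper57.PC
open Pool.Agent.Helper57.LH (WP WP_mono WP_nonneg WP_add WP_smul WP_neg WP_sum CLA CLA_pos one_le_log Gm Gm_nonneg gB gB_cont gB_le gB_nonneg log_pow_le NT_le_ev ic ic_apply ic_nonneg ic_le_one pairCount_WP)
open Pool.Agent.Helper57.LS (cS cS_abs)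
open Pool.Agent.Helper4.PC

/-- the uniform kernel law -/
def ULaw (c C : ℝ) : Prop := ∀ᶠ T : ℝ in atTop, ∀ B v : ℝ, 9600 ≤ B → B ≤ c * Real.log T → |v| ≤ Real.log T →
  |WP T (fun u => Gm ((u - v) / B)) - SN T * (AT T * B + cS (v / B) / B)| ≤ C * (SN T * (1 / B ^ 2 + (1 + |v| / B) / Real.log T))

lemma poly_small (c : ℝ) (k : ℕ) {s : ℝ} (hs : 0 < s) : ∀ᶠ T : ℝ in atTop, c * Real.log T ^ k ≤ T ^ s := by
  filter_upwards [log_pow_le c k (s := 1 - s) (by linarith), eventually_gt_atTop (0:ℝ)] with T h1 h2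
  have h3 : 0 < T ^ (1 - s) := Real.rpow_pos_of_pos h2 _
  have h4 : T ^ s * T ^ (1 - s) = T := by
    rw [← Real.rpow_add h2]; simp
  have h5 : c * Real.log T ^ k * T ^ (1 - s) ≤ T ^ s * T ^ (1 - s) := by rw [h4]; exact h1
  exact le_of_mul_le_mul_right h5 h3

noncomputable def CAT : ℝ := 2 * (1 + ell) + (ell ^ 2 + 2 * ell + 2)

lemma CAT_pos : 0 < CAT := by
  have := ell_nonneg
  unfold CAT; positivity

lemma AT_close {T : ℝ} (hT : 3 ≤ T) : |AT T - 1| ≤ CAT / Real.log T := by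
  have hL := one_le_log hT
  have hell := ell_nonneg
  set L := Real.log T with hLd
  have hL0 : 0 < L := by linarith
  have e : AT T - 1 = (-(2 * (1 + ell)) * L + (ell ^ 2 + 2 * ell + 2)) / L ^ 2 := by
    unfold AT
    rw [← hLd]
    change ((L - ell) ^ 2 - 2 * (L - ell) + 2) / L ^ 2 - 1 = _
    field_simp
    ring
  rw [e, abs_div, abs_of_pos (by positivity : 0 < L ^ 2), div_le_div_iff₀ (by positivity) hL0]
  have h1 : |-(2 * (1 + ell)) * L + (ell ^ 2 + 2 * ell + 2)| ≤ CAT * L := by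
    refine (abs_add_le _ _).trans ?_
    rw [abs_mul, abs_neg, abs_of_nonneg (by positivity : 0 ≤ 2 * (1 + ell)), abs_of_pos hL0, abs_of_nonneg (by positivity : 0 ≤ ell ^ 2 + 2 * ell + 2)]
    unfold CAT
    nlinarith [mul_nonneg (by positivity : 0 ≤ ell ^ 2 + 2 * ell + 2) (by linarith : 0 ≤ L - 1)]
  calc |-(2 * (1 + ell)) * L + (ell ^ 2 + 2 * ell + 2)| * L ≤ (CAT * L) * L := by gcongr
    _ = CAT * L ^ 2 := by ring

/-- all the uniform input on the central kernels in one package -/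
def Pack (c K T : ℝ) : Prop := 3 ≤ T ∧ CAT ≤ Real.log T ∧ 9600 * 4 ≤ c * Real.log T ∧
  (∀ B : ℝ, 9600 ≤ B → B ≤ c * Real.log T → WP T (gB B) ≤ K * (SN T * B) ∧ QQ (muT T) (nuT T) (gB B) ≤ K * (SN T / B)) ∧
  (∀ (φ : ℝ → ℝ) (M D : ℝ), Continuous φ → (∀ x, |φ x| ≤ D) → Wb M φ → M ≤ T ^ (3/10 : ℝ) →
    |QQ (muT T) (nuT T) φ - (WP T φ - SN T * AT T * ∫ s, φ s)| ≤ K * (SN T / Real.log T ^ 2) * (1 + |∫ s, φ s|))

theorem exists_pack {c C C' : ℝ} (hc : 0 < c) (hc1 : c ≤ 1) (hC : 0 ≤ C) (hC' : 0 ≤ C') (hU : ULaw c C) (hN : NLaw C') :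
    ∃ K : ℝ, 1 ≤ K ∧ ∀ᶠ T : ℝ in atTop, Pack c K T := by
  have hl := Real.tendsto_log_atTop
  have hell := ell_nonneg
  have hCQ : 1 ≤ CQ C' := by unfold CQ; nlinarith
  refine ⟨4 + 2 * C + 2 * CQ C', by linarith, ?_⟩
  filter_upwards [hU, QQ_unif hC' hN, eventually_ge_atTop (3:ℝ), hl.eventually_ge_atTop CAT, hl.eventually_ge_atTop (9600 * 4 / c),
    poly_small (W0 ^ 2) 2 (s := 3/10) (by norm_num), hl.eventually_ge_atTop 1] with T g1 g2 g3 g4 g5 g6 g7
  have hS := SN_pos (T := T) (by linarith)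
  have hL0 : 0 < Real.log T := by linarith
  obtain ⟨L, hL⟩ : ∃ L, L = Real.log T := ⟨_, rfl⟩
  have hAT := abs_le.mp (AT_close g3)
  have hCAT : CAT / Real.log T ≤ 1 := by rw [div_le_one hL0]; exact g4
  refine ⟨g3, g4, ?_, ?_, ?_⟩
  · rw [div_le_iff₀ hc] at g5; linarith
  · intro B hB hBL
    have hB0 : 0 < B := by linarith
    have hBL' : B ≤ Real.log T := by nlinarith
    have h1 := g1 B 0 hB hBL (by rw [abs_zero]; linarith)
    have e0 : (fun u => Gm ((u - 0) / B)) = gB B := by funext u; rw [sub_zero]; rfl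
    rw [e0, abs_zero, zero_div, add_zero] at h1
    have h2 := (abs_le.mp h1).2
    have h3 := (abs_le.mp (cS_abs 0)).2
    have h4 : cS 0 / B ≤ 2 / B := by gcongr
    have h5 : 1 / B ^ 2 + 1 / Real.log T ≤ 2 / B := by
      have a1 : 1 / B ^ 2 ≤ 1 / B := by
        apply one_div_le_one_div_of_le hB0
        nlinarith
      have a2 : 1 / Real.log T ≤ 1 / B := one_div_le_one_div_of_le hB0 hBL'
      have a3 : 2 / B = 1 / B + 1 / B := by ring
      linarith
    have h6 : C * (SN T * (1 / B ^ 2 + 1 / Real.log T)) ≤ C * (SN T * (2 / B)) := by gcongr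
    have h7 : WP T (gB B) - SN T * AT T * B ≤ (2 + 2 * C) * (SN T / B) := by
      have : SN T * (cS 0 / B) ≤ SN T * (2 / B) := by gcongr
      have e1 : (2 + 2 * C) * (SN T / B) = SN T * (2 / B) + C * (SN T * (2 / B)) := by ring
      rw [e1]
      linarith
    have hCQ0 : 0 ≤ CQ C' := by linarith
    have hSB : 0 ≤ SN T / B := by positivity
    constructor
    · have h8 : SN T * AT T * B ≤ 2 * (SN T * B) := by
        have h20 : AT T ≤ 2 := by linarith [hAT.2]
        calc SN T * AT T * B ≤ SN T * 2 * B := by gcongr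
          _ = _ := by ring
      have h9 : SN T / B ≤ SN T * B := by
        rw [div_le_iff₀ hB0]
        have : 1 ≤ B * B := by nlinarith
        calc SN T = SN T * 1 := (mul_one _).symm
          _ ≤ SN T * (B * B) := by gcongr
          _ = _ := by ring
      have h10 : (2 + 2 * C) * (SN T / B) ≤ (2 + 2 * C) * (SN T * B) := by gcongr
      have h11 : 0 ≤ CQ C' * (SN T * B) := by positivity
      have e2 : (4 + 2 * C + 2 * CQ C') * (SN T * B) = 2 * (SN T * B) + (2 + 2 * C) * (SN T * B) + 2 * (CQ C' * (SN T * B)) := by ring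
      rw [e2]
      linarith
    · have h8 := g2 (gB B) (B ^ 2 * W0 ^ 2) (Gm 0) (gB_cont B) (fun x => by
        rw [abs_of_nonneg (gB_nonneg B x)]; exact gB_le B x) (Wb_gB (by linarith)) (by
        calc B ^ 2 * W0 ^ 2 ≤ Real.log T ^ 2 * W0 ^ 2 := by gcongr
          _ = W0 ^ 2 * Real.log T ^ 2 := by ring
          _ ≤ _ := g6)
      rw [gB_integral hB0, abs_of_pos hB0] at h8
      have h9 := (abs_le.mp h8).2
      have h10 : CQ C' * (SN T / Real.log T ^ 2) * (1 + B) ≤ 2 * (CQ C' * (SN T / B)) := by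
        have a1 : (SN T / Real.log T ^ 2) * (1 + B) ≤ 2 * (SN T / B) := by
          rw [div_mul_eq_mul_div, ← mul_div_assoc, div_le_div_iff₀ (by positivity) hB0]
          have a2 : (1 + B) * B ≤ 2 * Real.log T ^ 2 := by
            calc (1 + B) * B ≤ (B + B) * B := by gcongr; linarith
              _ = 2 * B ^ 2 := by ring
              _ ≤ 2 * Real.log T ^ 2 := by gcongr
          calc SN T * (1 + B) * B = SN T * ((1 + B) * B) := by ring
            _ ≤ SN T * (2 * Real.log T ^ 2) := by gcongr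
            _ = _ := by ring
        calc CQ C' * (SN T / Real.log T ^ 2) * (1 + B) = CQ C' * ((SN T / Real.log T ^ 2) * (1 + B)) := by ring
          _ ≤ CQ C' * (2 * (SN T / B)) := by gcongr
          _ = _ := by ring
      have e2 : (4 + 2 * C + 2 * CQ C') * (SN T / B) = 2 * (SN T / B) + (2 + 2 * C) * (SN T / B) + 2 * (CQ C' * (SN T / B)) := by ring
      rw [e2]
      linarith
  · intro φ M D hcont hb hW hM
    refine (g2 φ M D hcont hb hW hM).trans ?_
    have : 0 ≤ (SN T / Real.log T ^ 2) * (1 + |∫ s, φ s|) := by positivity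
    calc CQ C' * (SN T / Real.log T ^ 2) * (1 + |∫ s, φ s|) = CQ C' * ((SN T / Real.log T ^ 2) * (1 + |∫ s, φ s|)) := by ring
      _ ≤ (4 + 2 * C + 2 * CQ C') * ((SN T / Real.log T ^ 2) * (1 + |∫ s, φ s|)) := by
          gcongr
          linarith
      _ = _ := by ring

/-- The bounded error law for all windows, uniform. -/
theorem bounded_error_U {c K : ℝ} (hc1 : c ≤ 1) (hK : 1 ≤ K) (hP : ∀ᶠ T : ℝ in atTop, Pack c K T) :
    ∃ C : ℝ, 0 < C ∧ ∀ᶠ T : ℝ in atTop, ∀ α β : ℝ, α ≤ β → |α| ≤ T ^ (1/2 : ℝ) → |β| ≤ T ^ (1/2 : ℝ) → β - α ≤ c * Real.log T →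
    |pairCount T α β - (β - α) * SN T| ≤ C * SN T := by
  set B₀ : ℝ := 9600 with hB₀
  have hB0 : 0 < B₀ := by rw [hB₀]; norm_num
  have hB4 : 0 < 4 * B₀ := by positivity
  have hg := g0_pos
  have hc3 := C3_pos
  have hCA := CAT_pos
  have hl := Real.tendsto_log_atTop
  have hW0 := W0_pos
  refine ⟨2 * C3 * (K * (4 * B₀)) + (8 / g0) * (2 * (K / B₀)) + 2 * K + CAT, by positivity, ?_⟩
  filter_upwards [hP, poly_small (2 * (4 * B₀ * W0 / g0)) 1 (s := 1/20) (by norm_num), hl.eventually_ge_atTop 1] with T hT g1 g2 α β hab hα hβ hwin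
  obtain ⟨hT3, hCAL, hB4L, hker, hQQ⟩ := hT
  have hT1 : 1 < T := by linarith
  have hT0 : 0 < T := by linarith
  have hS := SN_pos hT1
  have hL0 : 0 < Real.log T := by linarith
  have hba : 0 ≤ β - α := by linarith
  have hbaL : β - α ≤ Real.log T := by nlinarith
  -- the scale
  obtain ⟨J, hJ1, hJ2⟩ := exists_nat_pow_near (x := max 1 ((β - α) / B₀)) (y := (2:ℝ)) (le_max_left _ _) (by norm_num)
  have hJ' : β - α ≤ 2 * (2 ^ J * B₀) := by
    have h1 : (β - α) / B₀ < 2 ^ (J + 1) := lt_of_le_of_lt (le_max_right _ _) hJ2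
    rw [div_lt_iff₀ hB0, pow_succ] at h1
    linarith
  have hJL : 2 ^ J * B₀ ≤ c * Real.log T := by
    rcases le_total 1 ((β - α) / B₀) with h | h
    · rw [max_eq_right h, le_div_iff₀ hB0] at hJ1
      linarith
    · rw [max_eq_left h] at hJ1
      nlinarith
  have hpos : ∀ i : ℕ, 0 < 2 ^ i * B₀ := fun i => by positivity
  have hge : ∀ i : ℕ, 9600 ≤ 2 ^ i * B₀ := by
    intro i
    have : (1:ℝ) ≤ 2 ^ i := one_le_pow₀ (by norm_num)
    rw [hB₀]; linarith
  have hle : ∀ i ∈ Finset.range (J + 1), 2 ^ i * B₀ ≤ c * Real.log T := by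
    intro i hi
    rw [Finset.mem_range, Nat.lt_succ_iff] at hi
    refine le_trans ?_ hJL
    have : (2:ℝ) ^ i ≤ 2 ^ J := pow_le_pow_right₀ (by norm_num) hi
    gcongr
  -- main comparison
  have h1 := hQQ (CT (Aw (4 * B₀) α β)) ((β - α) * om (T ^ (1/2 : ℝ)) * (4 * B₀ * W0 / g0)) _ (CT_cont (Aw_integrable hB4 α β))
    (CT_abs_le (Aw_integrable hB4 α β)) (Wb_CT_Aw (by rw [hB₀]; norm_num) hab hα hβ) (by
      have a1 : om (T ^ (1/2 : ℝ)) ≤ 2 * T ^ (1/4 : ℝ) := by
        unfold om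
        rw [abs_of_pos (by positivity), Real.sqrt_eq_rpow, ← Real.rpow_mul hT0.le]
        have : (1:ℝ) ≤ T ^ (1/4 : ℝ) := Real.one_le_rpow hT1.le (by norm_num)
        have e : (1/2 : ℝ) * (1/2) = 1/4 := by norm_num
        rw [e]
        linarith
      have a2 := om_pos (T ^ (1/2 : ℝ))
      have e2 : T ^ (3/10 : ℝ) = T ^ (1/20 : ℝ) * T ^ (1/4 : ℝ) := by
        rw [← Real.rpow_add hT0]; norm_num
      rw [e2, pow_one] at *
      calc (β - α) * om (T ^ (1/2 : ℝ)) * (4 * B₀ * W0 / g0) ≤ Real.log T * (2 * T ^ (1/4 : ℝ)) * (4 * B₀ * W0 / g0) := by gcongr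
        _ = (2 * (4 * B₀ * W0 / g0) * Real.log T) * T ^ (1/4 : ℝ) := by ring
        _ ≤ T ^ (1/20 : ℝ) * T ^ (1/4 : ℝ) := by gcongr)
  rw [CT_Aw_integral hB4 hab, abs_of_nonneg hba] at h1
  have h1' : K * (SN T / Real.log T ^ 2) * (1 + (β - α)) ≤ 2 * K * SN T := by
    have a1 : (SN T / Real.log T ^ 2) * (1 + (β - α)) ≤ 2 * SN T := by
      rw [div_mul_eq_mul_div, div_le_iff₀ (by positivity)]
      have a2 : 1 + (β - α) ≤ 2 * Real.log T ^ 2 := by nlinarith
      calc SN T * (1 + (β - α)) ≤ SN T * (2 * Real.log T ^ 2) := by gcongr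
        _ = _ := by ring
    calc K * (SN T / Real.log T ^ 2) * (1 + (β - α)) = K * ((SN T / Real.log T ^ 2) * (1 + (β - α))) := by ring
      _ ≤ K * (2 * SN T) := by gcongr
      _ = _ := by ring
  -- the smooth part
  have h4 : |QQ (muT T) (nuT T) (CT (Aw (4 * B₀) α β))| ≤ ∑ i ∈ Finset.range (J + 1), (8 / g0) * QQ (muT T) (nuT T) (gB (2 ^ i * B₀)) := by
    have h5 := QQ_dom (muT T) (nuT T) (Aw_integrable hB4 α β)
      (A' := fun ξ => ∑ i ∈ Finset.range (J + 1), (8 / g0) * gh (2 ^ i * B₀) ξ)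
      (integrable_finsetSum _ fun i _ => (gh_integrable (hpos i)).const_mul _) (Aw_dom hB0 hab J hJ')
    rw [QQ_sum _ _ _ _ _ (fun i _ => gh_integrable (hpos i))] at h5
    refine h5.trans (le_of_eq ?_)
    apply Finset.sum_congr rfl
    intro i _
    rw [CT_gh_fun (hpos i)]
  have h5 : ∑ i ∈ Finset.range (J + 1), (8 / g0) * QQ (muT T) (nuT T) (gB (2 ^ i * B₀)) ≤ ((8 / g0) * (2 * (K / B₀))) * SN T := by
    calc ∑ i ∈ Finset.range (J + 1), (8 / g0) * QQ (muT T) (nuT T) (gB (2 ^ i * B₀))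
        ≤ ∑ i ∈ Finset.range (J + 1), (8 / g0) * (SN T * ((K / B₀) / 2 ^ i)) := by
          apply Finset.sum_le_sum
          intro i hi
          have h6 := (hker (2 ^ i * B₀) (hge i) (hle i hi)).2
          have e : K * (SN T / (2 ^ i * B₀)) = SN T * ((K / B₀) / 2 ^ i) := by field_simp
          rw [e] at h6
          gcongr
      _ = (8 / g0) * SN T * (∑ i ∈ Finset.range (J + 1), (K / B₀) / 2 ^ i) := by
          rw [Finset.mul_sum]
          apply Finset.sum_congr rfl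
          intro i _
          ring
      _ ≤ (8 / g0) * SN T * (2 * (K / B₀)) := by
          have := sum_geom (K / B₀) (by positivity) J
          gcongr
      _ = _ := by ring
  have h6 : WP T (CT (Aw (4 * B₀) α β)) = WP T (Wf (4 * B₀) α β) := by
    have e : CT (Aw (4 * B₀) α β) = fun u => (1 / 2) * (Wf (4 * B₀) α β u + Wf (4 * B₀) α β (-u)) := funext (CT_Aw hB4 α β)
    rw [e, WP_smul, WP_add, WP_neg]; ring
  -- the sharp part
  have h3 : WP T (gB (4 * B₀)) ≤ K * (SN T * (4 * B₀)) := (hker (4 * B₀) (by rw [hB₀]; norm_num) (by linarith)).1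
  have h7 : |WP T (ic (Icc α β)) - WP T (Wf (4 * B₀) α β)| ≤ 2 * C3 * (K * (SN T * (4 * B₀))) := by
    have e1 : WP T (ic (Icc α β)) - WP T (Wf (4 * B₀) α β) = WP T (fun u => ic (Icc α β) u - Wf (4 * B₀) α β u) := by
      have := WP_add T (fun u => ic (Icc α β) u) (fun u => (-1) * Wf (4 * B₀) α β u)
      rw [WP_smul] at this
      have e2 : (fun u => ic (Icc α β) u - Wf (4 * B₀) α β u) = fun u => ic (Icc α β) u + (-1) * Wf (4 * B₀) α β u := by
        funext u; ring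
      rw [e2, this]; ring
    have e3 : WP T (fun u => C3 * Gm ((u - α) / (4 * B₀)) + C3 * Gm ((u - β) / (4 * B₀))) ≤ 2 * C3 * (K * (SN T * (4 * B₀))) := by
      rw [WP_add, WP_smul, WP_smul]
      have a1 := (WP_shift hB4 T α).trans h3
      have a2 := (WP_shift hB4 T β).trans h3
      have a3 : C3 * WP T (fun u => Gm ((u - α) / (4 * B₀))) ≤ C3 * (K * (SN T * (4 * B₀))) := by gcongr
      have a4 : C3 * WP T (fun u => Gm ((u - β) / (4 * B₀))) ≤ C3 * (K * (SN T * (4 * B₀))) := by gcongr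
      linarith
    rw [e1]
    have hcl := Wf_close hB4 α β
    rw [abs_le]
    constructor
    · have a1 : WP T (fun u => -(C3 * Gm ((u - α) / (4 * B₀)) + C3 * Gm ((u - β) / (4 * B₀)))) ≤ WP T (fun u => ic (Icc α β) u - Wf (4 * B₀) α β u) :=
        WP_mono (fun u => (abs_le.mp (hcl u)).1)
      have a2 : WP T (fun u => -(C3 * Gm ((u - α) / (4 * B₀)) + C3 * Gm ((u - β) / (4 * B₀)))) = - WP T (fun u => C3 * Gm ((u - α) / (4 * B₀)) + C3 * Gm ((u - β) / (4 * B₀))) := by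
        have := WP_smul T (-1) (fun u => C3 * Gm ((u - α) / (4 * B₀)) + C3 * Gm ((u - β) / (4 * B₀)))
        simp only [neg_mul, one_mul] at this
        exact this
      rw [a2] at a1
      exact (neg_le_neg e3).trans a1
    · exact (WP_mono (fun u => (abs_le.mp (hcl u)).2)).trans e3
  -- density correction
  have h8 : |SN T * AT T * (β - α) - SN T * (β - α)| ≤ CAT * SN T := by
    have e : SN T * AT T * (β - α) - SN T * (β - α) = SN T * ((AT T - 1) * (β - α)) := by ring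
    rw [e, abs_mul, abs_mul, abs_of_pos hS, abs_of_nonneg hba]
    have a1 := AT_close hT3
    calc SN T * (|AT T - 1| * (β - α)) ≤ SN T * ((CAT / Real.log T) * Real.log T) := by gcongr
      _ = _ := by field_simp
  rw [pairCount_WP]
  rw [h6] at h1
  have b1 := abs_le.mp (h1.trans h1')
  have b2 := abs_le.mp (h4.trans h5)
  have b3 := abs_le.mp h7
  have b4 := abs_le.mp h8
  obtain ⟨c1, hc1'⟩ : ∃ c, c = 2 * C3 * (K * (4 * B₀)) := ⟨_, rfl⟩
  obtain ⟨c2, hc2'⟩ : ∃ c, c = (8 / g0) * (2 * (K / B₀)) := ⟨_, rfl⟩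
  have hc1'' : 2 * C3 * (K * (SN T * (4 * B₀))) = c1 * SN T := by rw [hc1']; ring
  rw [hc1''] at b3
  rw [← hc2'] at b2
  rw [← hc1', ← hc2']
  rw [abs_le]
  constructor
  · linarith [b1.1, b1.2, b2.1, b2.2, b3.1, b3.2, b4.1, b4.2]
  · linarith [b1.1, b1.2, b2.1, b2.2, b3.1, b3.2, b4.1, b4.2]

end Pool.Agent.Helper4.PU
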