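import Pool.Agent.Helper4.PU.NVV

namespace Pool.Agent.Helper4.PU

open Set MeasureTheory Filter Topology
open scoped Convolution
open Pool.Agent.Helper57.LH (sc sc_cont sc_even sc_integrable sc_nonneg sc_le_one sc_integral sc_eq sc_zero sc_decay sc_ae
  Gm Gm_nonneg Gm_even Gm_integral Gm_integrable Gm_cont Gm_le WP WP_mono WP_nonneg WP_add WP_smul WP_neg WP_sum gB gB_cont gB_le gB_nonneg one_le_log ic ic_apply pairCount_WP)
open Pool.Agent.Helper57.LS (cS cS_abs pred_kernel)
open Pool.Agent.Helper57.PC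
open Pool.Agent.Helper57.Zeta
open Pool.Agent.Helper4.PC

noncomputable def CT2 (C K : ℝ) : ℝ := CSm C K + C4 (2 * 19200) * (2 * (K * (2 * 19200)) + 2 + 2 * (2 * 19200))

/-- the law for the triangle -/
theorem tri_law_U {c₀ C K T : ℝ} (hc1 : c₀ ≤ 1) (hC : 0 ≤ C) (hK : 0 ≤ K) (hP : Pack c₀ K T)
    (hU : ∀ B v : ℝ, 9600 ≤ B → B ≤ c₀ * Real.log T → |v| ≤ Real.log T →
      |WP T (fun u => Gm ((u - v) / B)) - SN T * (AT T * B + cS (v / B) / B)| ≤ C * (SN T * (1 / B ^ 2 + (1 + |v| / B) / Real.log T)))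
    (hCM : CM * Real.log T ^ 4 ≤ T ^ (3/10 : ℝ)) {X : ℝ} (hX : 19200 < X) (hXL : X ≤ c₀ * Real.log T) (hXl : X * Real.log X ≤ Real.log T) :
    |EU T (Tr X)| ≤ SN T * CT2 C K := by
  have hP' := hP
  obtain ⟨hT3, -, hcL, hker, -⟩ := hP'
  have hT1 : 1 < T := by linarith
  have hX0 : 0 < X := by linarith
  have hB : (0:ℝ) < 2 * 19200 := by norm_num
  have hC4 := C4_pos hB
  have h1 := smooth_law_U hc1 hC hK hP hU hCM hX hXL hXl
  have h2 := (hker (2 * 19200) (by norm_num) (by linarith)).1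
  have h2' : WP T (gB (2 * 19200)) ≤ SN T * ((2 * 19200) + ((K - 1) * (2 * 19200) ^ 2) / (2 * 19200)) := by
    refine h2.trans (le_of_eq ?_)
    field_simp
    ring
  have iC := CT_AX_integrable hB hX0
  have iψ : Integrable (fun u => Tr X u - CT (AX (2 * 19200) X) u) := (Tr_integrable hX0).sub iC
  have e : EU T (Tr X) = EU T (CT (AX (2 * 19200) X)) + EU T (fun u => Tr X u - CT (AX (2 * 19200) X) u) := by
    rw [← EU_add T iC iψ]
    congr 1; funext u; ring
  have h3 := EE_phys (X := X) hB hC4.le hT1 h2' (Tr_close hB hX0)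
  have h4 : EU T (fun u => Tr X u - CT (AX (2 * 19200) X) u) = EE T (fun u => Tr X u - CT (AX (2 * 19200) X) u) := by
    unfold EU
    rw [integral_sub (Tr_integrable hX0) iC, Tr_integral hX0, CT_AX_integral hB hX0, sub_self, mul_zero, sub_zero]
  rw [e, h4]
  refine (abs_add_le _ _).trans ?_
  have e2 : (2 * 19200) + ((K - 1) * (2 * 19200) ^ 2) / (2 * 19200) = K * (2 * 19200) := by field_simp; ring
  rw [e2] at h3
  unfold CT2
  rw [mul_add]
  exact add_le_add h1 h3

/-- the error in symmetric windows, exact density -/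
noncomputable def ErU (T β : ℝ) : ℝ := Er T β - SN T * (AT T - 1) * (2 * β)

lemma ErU_int (T c d : ℝ) : IntervalIntegrable (ErU T) volume c d :=
  (Er_int T c d).sub (Continuous.intervalIntegrable (by fun_prop) _ _)

lemma EU_Tr {X : ℝ} (hX : 0 < X) (T : ℝ) : EU T (Tr X) = ∫ β in (0:ℝ)..X, ErU T β := by
  unfold EU ErU
  rw [EE_Tr hX, Tr_integral hX, intervalIntegral.integral_sub (Er_int T 0 X) (Continuous.intervalIntegrable (by fun_prop) _ _),
    intervalIntegral.integral_const_mul, intervalIntegral.integral_const_mul, integral_id]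
  ring

/-- integrated law -/
theorem int_law_U {c₀ C C' : ℝ} (hc0 : 0 < c₀) (hc1 : c₀ ≤ 1) (hC : 0 ≤ C) (hC' : 0 ≤ C') (hU : ULaw c₀ C) (hN : NLaw C') :
    ∃ D : ℝ, 0 < D ∧ ∀ᶠ T : ℝ in atTop,
      (∀ α β : ℝ, α ≤ β → |α| ≤ T ^ (1/2 : ℝ) → |β| ≤ T ^ (1/2 : ℝ) → |pairCount T α β - (β - α) * SN T| ≤ D * (1 + (β - α) / Real.log T) * SN T) ∧
      (∀ X : ℝ, 0 ≤ X → X ≤ c₀ * Real.log T / Real.log (Real.log T) → |∫ β in (0:ℝ)..X, ErU T β| ≤ D * SN T) := by
  obtain ⟨K, hK, hP⟩ := exists_pack hc0 hc1 hC hC' hU hN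
  obtain ⟨C2, hC2, hB⟩ := bounded_error_U hc1 hK hP
  have hLong := long_windows hc0 hC2 hB
  set D1 := 2 * C2 * (1 + 1 / c₀) with hD1
  have hD10 : 0 < D1 := by rw [hD1]; positivity
  have hl := Real.tendsto_log_atTop
  have hCT2 : 0 ≤ CT2 C K := by
    have := CR_nonneg 19200
    have := C4_pos (B := 2 * 19200) (by norm_num)
    unfold CT2 CSm
    positivity
  refine ⟨D1 + CT2 C K + (C2 + 2 + 38400) * 19200, by positivity, ?_⟩
  filter_upwards [hP, hU, hB, hLong, poly_small CM 4 (s := 3/10) (by norm_num), hl.eventually_ge_atTop (Real.exp 1), poly_small (38400) 0 (s := 1/2) (by norm_num),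
    hl.eventually_ge_atTop (38400 / c₀)] with T g1 g2 g3 g4 g5 g6 g7 g8
  obtain ⟨hT3, hCAT, hcL, -, -⟩ := id g1
  have hT1 : 1 < T := by linarith
  have hS := SN_pos hT1
  have hL1 := one_le_log hT3
  have hL0 : 0 < Real.log T := by linarith
  have hLL1 : 1 ≤ Real.log (Real.log T) := by
    have := Real.log_le_log (Real.exp_pos 1) g6
    rwa [Real.log_exp] at this
  refine ⟨?_, ?_⟩
  · intro α β hab hα hβ
    refine (g4 α β hab hα hβ).trans ?_
    have h1 : 0 ≤ (β - α) / Real.log T := div_nonneg (by linarith) hL0.le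
    gcongr
    have : 0 ≤ (C2 + 2 + 38400) * 19200 := by positivity
    linarith
  · intro X hX0 hX
    rcases le_or_gt X 19200 with h3 | h3
    · have hbd : ∀ β ∈ uIoc (0:ℝ) X, ‖ErU T β‖ ≤ (C2 + 2 + 38400) * SN T := by
        intro β hβ
        rw [uIoc_of_le hX0] at hβ
        have hβ0 := hβ.1
        have hβ1 : β ≤ 19200 := hβ.2.trans h3
        have g7' : (38400:ℝ) ≤ T ^ (1/2 : ℝ) := by simpa using g7
        have k1 := abs_le.mp (g3 (-β) β (by linarith) (by rw [abs_neg, abs_of_pos hβ0]; linarith) (by rw [abs_of_pos hβ0]; linarith) (by linarith))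
        have k2 := abs_le.mp (int_F_close le_rfl hβ0.le)
        have k3 := AT_close hT3
        have k4 : |SN T * (AT T - 1) * (2 * β)| ≤ 38400 * SN T := by
          rw [abs_mul, abs_mul, abs_of_pos hS, abs_of_nonneg (by linarith : 0 ≤ 2 * β)]
          have h5 : |AT T - 1| ≤ 1 := k3.trans (by rw [div_le_one hL0]; exact hCAT)
          calc SN T * |AT T - 1| * (2 * β) ≤ SN T * 1 * (2 * 19200) := by gcongr
            _ = _ := by ring
        have k5 : |Er T β| ≤ (C2 + 2) * SN T := by
          unfold Er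
          rw [int_F_sym, abs_le]
          constructor
          · nlinarith [k1.1, k1.2, k2.1, k2.2]
          · nlinarith [k1.1, k1.2, k2.1, k2.2]
        unfold ErU
        rw [Real.norm_eq_abs]
        refine (abs_sub _ _).trans ?_
        linarith
      have h4 := intervalIntegral.norm_integral_le_of_norm_le_const hbd
      rw [Real.norm_eq_abs, sub_zero, abs_of_nonneg hX0] at h4
      refine h4.trans ?_
      have h5 : (C2 + 2 + 38400) * SN T * X ≤ (C2 + 2 + 38400) * SN T * 19200 := by gcongr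
      have h6 : 0 ≤ (D1 + CT2 C K) * SN T := by positivity
      linarith
    · have h4 : X ≤ c₀ * Real.log T := by
        refine hX.trans ?_
        apply div_le_self (by positivity) hLL1
      have h5 : X ≤ Real.log T := by nlinarith
      have h6 : Real.log X ≤ Real.log (Real.log T) := Real.log_le_log (by linarith) h5
      have h7 : X * Real.log X ≤ Real.log T := by
        rw [le_div_iff₀ (by linarith)] at hX
        calc X * Real.log X ≤ X * Real.log (Real.log T) := by gcongr
          _ ≤ c₀ * Real.log T := hX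
          _ ≤ 1 * Real.log T := by gcongr
          _ = _ := one_mul _
      have h8 := tri_law_U hc1 hC (by linarith) g1 g2 g5 h3 h4 h7
      rw [EU_Tr (by linarith)] at h8
      refine h8.trans ?_
      have h9 : 0 ≤ (D1 + (C2 + 2 + 38400) * 19200) * SN T := by positivity
      linarith

end Pool.Agent.Helper4.PU
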