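import Pool.Agent.Helper4.PC.Meas
import Pool.Agent.Helper57.LH.VThree

namespace Pool.Agent.Helper4.PU

open Set MeasureTheory Filter Topology
open Pool.Agent.Helper57.Zeta
open Pool.Agent.Helper57.PC
open Pool.Agent.Helper57.LH (WP CLA CLA_pos Afun_log loc_count ZT mem_ZT sum_ZT mx one_le_log)
open Pool.Agent.Helper4.PC

/-- local count of zeros -/
lemma cnt_loc {T τ : ℝ} (hT : 3 ≤ T) (h0 : 0 ≤ τ) (h1 : τ ≤ T) (s : Finset ℂ) (hs : s ⊆ Zf T) (hd : ∀ ρ ∈ s, |ρ.im - τ| ≤ 1) :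
    ∑ ρ ∈ s, (mult ρ : ℝ) ≤ 5 / 2 * (CLA * Real.log T) := by
  classical
  have h2 := loc_count (s.subtype (fun ρ => xi ρ = 0)) τ (by
    intro ρ hρ
    rw [Finset.mem_subtype] at hρ
    exact hd _ hρ)
  have h3 : ∑ ρ ∈ s.subtype (fun ρ => xi ρ = 0), mx ρ = ∑ ρ ∈ s, mx ρ := by
    apply Finset.sum_subtype_of_mem
    intro ρ hρ
    have := hs hρ
    rw [mem_Zf] at this
    exact isNontrivialZero_iff.mp this.1
  have h4 : ∑ ρ ∈ s, (mult ρ : ℝ) = ∑ ρ ∈ s, mx ρ := by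
    apply Finset.sum_congr rfl
    intro ρ hρ
    have := hs hρ
    rw [mem_Zf] at this
    rw [mult_eq this.1]
    rfl
  rw [h4, ← h3]
  refine h2.trans ?_
  have := Afun_log hT h0 h1
  linarith

/-- zeros in an interval -/
lemma cnt_int {T a b : ℝ} (hT : 3 ≤ T) (h0 : 0 ≤ a) (hab : a ≤ b) (h1 : b ≤ T) (s : Finset ℂ) (hs : s ⊆ Zf T) (hd : ∀ ρ ∈ s, a ≤ ρ.im ∧ ρ.im ≤ b) :
    ∑ ρ ∈ s, (mult ρ : ℝ) ≤ (b - a + 1) * (5 / 2 * (CLA * Real.log T)) := by
  classical
  have hL := one_le_log hT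
  have hC := CLA_pos
  have hmap : ∀ ρ ∈ s, ⌊ρ.im - a⌋₊ ∈ Finset.range (⌊b - a⌋₊ + 1) := by
    intro ρ hρ
    rw [Finset.mem_range, Nat.lt_succ_iff]
    apply Nat.floor_le_floor
    linarith [(hd ρ hρ).2]
  rw [← Finset.sum_fiberwise_of_maps_to hmap]
  have hb : ∀ j ∈ Finset.range (⌊b - a⌋₊ + 1), ∑ ρ ∈ s with ⌊ρ.im - a⌋₊ = j, (mult ρ : ℝ) ≤ 5 / 2 * (CLA * Real.log T) := by
    intro j hj
    rw [Finset.mem_range, Nat.lt_succ_iff] at hj
    have hj2 : (j:ℝ) ≤ b - a := by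
      have := Nat.floor_le (sub_nonneg.mpr hab)
      have h5 : (j:ℝ) ≤ (⌊b - a⌋₊ : ℝ) := by exact_mod_cast hj
      linarith
    apply cnt_loc hT (τ := a + j) (by positivity) (by linarith) _ (fun ρ hρ => hs (Finset.mem_filter.mp hρ).1)
    intro ρ hρ
    rw [Finset.mem_filter] at hρ
    have h6 := hd ρ hρ.1
    have h7 := Nat.floor_le (sub_nonneg.mpr h6.1)
    have h8 := Nat.lt_floor_add_one (ρ.im - a)
    rw [hρ.2] at h7 h8
    rw [abs_le]
    constructor <;> linarith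
  refine (Finset.sum_le_sum hb).trans ?_
  rw [Finset.sum_const, Finset.card_range, nsmul_eq_mul]
  apply mul_le_mul_of_nonneg_right _ (by positivity)
  push_cast
  have := Nat.floor_le (sub_nonneg.mpr hab)
  linarith

/-- the zeros near the two ends -/
lemma edge_count {T K : ℝ} (hT : 3 ≤ T) (hK : 0 ≤ K) (hKT : 2 * Real.pi * K / Real.log T ≤ T) :
    (muT T).real (Icc K (SN T - K))ᶜ ≤ 5 * CLA * (2 * Real.pi * K + Real.log T) := by
  classical
  have hL := one_le_log hT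
  have hL0 : 0 < Real.log T := by linarith
  have hC := CLA_pos
  have hpi := Real.pi_pos
  set h := 2 * Real.pi * K / Real.log T with hh
  have hh0 : 0 ≤ h := by rw [hh]; positivity
  rw [muT_real T measurableSet_Icc.compl]
  set s1 := (Zf T).filter (fun ρ => ρ.im ≤ h) with hs1
  set s2 := (Zf T).filter (fun ρ => T - h ≤ ρ.im) with hs2
  have c1 := cnt_int (a := 0) (b := h) hT le_rfl hh0 hKT s1 (Finset.filter_subset _ _) (by
    intro ρ hρ
    rw [hs1, Finset.mem_filter, mem_Zf] at hρ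
    exact ⟨hρ.1.2.1, hρ.2⟩)
  have c2 := cnt_int (a := T - h) (b := T) hT (by linarith) (by linarith) le_rfl s2 (Finset.filter_subset _ _) (by
    intro ρ hρ
    rw [hs2, Finset.mem_filter, mem_Zf] at hρ
    exact ⟨hρ.2, hρ.1.2.2⟩)
  have c3 : ∑ ρ ∈ Zf T, (mult ρ : ℝ) * (Icc K (SN T - K))ᶜ.indicator (fun _ => (1:ℝ)) (xp T ρ) ≤ ∑ ρ ∈ s1, (mult ρ : ℝ) + ∑ ρ ∈ s2, (mult ρ : ℝ) := by
    rw [hs1, hs2, Finset.sum_filter, Finset.sum_filter, ← Finset.sum_add_distrib]
    apply Finset.sum_le_sum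
    intro ρ hρ
    have hm : (0:ℝ) ≤ mult ρ := Nat.cast_nonneg _
    by_cases hx : xp T ρ ∈ (Icc K (SN T - K))ᶜ
    · rw [indicator_of_mem hx, mul_one]
      rw [mem_compl_iff, mem_Icc, not_and_or, not_le, not_le] at hx
      rcases hx with hx | hx
      · have h3 : ρ.im ≤ h := by
          unfold xp at hx
          rw [hh, le_div_iff₀ hL0]
          rw [div_lt_iff₀ (by positivity)] at hx
          linarith
        rw [if_pos h3]
        split_ifs <;> linarith
      · have h3 : T - h ≤ ρ.im := by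
          unfold xp SN at hx
          rw [hh, sub_le_iff_le_add, ← sub_le_iff_le_add', le_div_iff₀ hL0]
          have h4 : (T * Real.log T / (2 * Real.pi) - K) * (2 * Real.pi) < ρ.im * Real.log T := by
            rwa [lt_div_iff₀ (by positivity)] at hx
          have h5 : (T * Real.log T / (2 * Real.pi) - K) * (2 * Real.pi) = T * Real.log T - K * (2 * Real.pi) := by
            field_simp
          rw [h5] at h4
          linarith
        rw [if_pos h3]
        split_ifs <;> linarith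
    · rw [indicator_of_notMem hx, mul_zero]
      split_ifs <;> linarith
  refine c3.trans ?_
  have e : 5 * CLA * (2 * Real.pi * K + Real.log T) = 2 * ((h + 1) * (5 / 2 * (CLA * Real.log T))) := by
    rw [hh]; field_simp
  rw [e]
  have e2 : T - (T - h) + 1 = h + 1 := by ring
  rw [e2] at c2
  rw [sub_zero] at c1
  linarith

/-- the quadratic form is the pair sum minus its mean value: explicit error -/
theorem QQ_err {T K : ℝ} (hT : 3 ≤ T) (hK : 0 < K) (hKT : 2 * Real.pi * K / Real.log T ≤ T) {φ : ℝ → ℝ} (hφ : Integrable φ) (hc : Continuous φ)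
    {C : ℝ} (hb : ∀ x, |φ x| ≤ C) {τ N : ℝ} (hτ : ∫ s in (Icc (-K) K)ᶜ, |φ s| ≤ τ) (hN : ∫ s, |φ s| ≤ N) :
    |QQ (muT T) (nuT T) φ - (WP T φ - (2 * NT T - SN T) * ∫ s, φ s)| ≤
      τ * (2 * NT T + SN T) + N * (10 * CLA * (2 * Real.pi * K + Real.log T) + 2 * K) := by
  have hT1 : 1 < T := by linarith
  have hS := SN_pos hT1
  have hNT := NT_nonneg T
  have hpi := Real.pi_pos
  set I := ∫ s, φ s with hI
  set M := SN T with hM
  have hE1 := edge (M := M) (K := K) hφ hc hb (muT T)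
  have hE2 := edge (M := M) (K := K) hφ hc hb (nuT T)
  rw [muT_univ] at hE1
  rw [nuT_univ hT1] at hE2
  have h6 := nuT_edge (T := T) hK
  have h7 := edge_count hT hK.le hKT
  rw [← hM] at h6 h7
  rw [← hI] at hE1 hE2
  have hN0 : 0 ≤ ∫ s, |φ s| := integral_nonneg fun s => abs_nonneg _
  have hE1' : |(∫ x, gw M φ x ∂(muT T)) - NT T * I| ≤ τ * NT T + N * (5 * CLA * (2 * Real.pi * K + Real.log T)) := by
    refine hE1.trans ?_
    gcongr
    linarith
  have hE2' : |(∫ x, gw M φ x ∂(nuT T)) - M * I| ≤ τ * M + N * (2 * K) := by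
    refine hE2.trans ?_
    gcongr
    linarith
  unfold QQ
  rw [II_muT, II_mu_nu, II_nu_nu, ← hM]
  have e3 : WP T φ - 2 * (∫ x, gw M φ x ∂(muT T)) + (∫ x, gw M φ x ∂(nuT T)) - (WP T φ - (2 * NT T - M) * I) =
      -2 * ((∫ x, gw M φ x ∂(muT T)) - NT T * I) + ((∫ x, gw M φ x ∂(nuT T)) - M * I) := by ring
  rw [e3]
  have a := abs_le.mp hE1'
  have b := abs_le.mp hE2'
  rw [abs_le]
  constructor
  · nlinarith [a.1, a.2, b.1, b.2]
  · nlinarith [a.1, a.2, b.1, b.2]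

end Pool.Agent.Helper4.PU
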