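import Pool.Agent.Helper4.PU.Final

namespace Pool.Agent.Helper4.PU

open Set MeasureTheory Filter Topology
open Pool.Agent.Helper57.LH (one_le_log)
open Pool.Agent.Helper57.PC
open Pool.Agent.Helper57.Zeta
open Pool.Agent.Helper4.PC

/-- the package of uniform laws -/
theorem package (hU : ∃ c C : ℝ, 0 < c ∧ c ≤ 1 ∧ 0 ≤ C ∧ ULaw c C) (hN : ∃ C : ℝ, 0 ≤ C ∧ NLaw C) :
    ∃ c D : ℝ, 0 < c ∧ c ≤ 1 ∧ 0 < D ∧ ∀ᶠ T : ℝ in atTop, 3 ≤ T ∧ Real.exp 1 ≤ Real.log T ∧ Real.log T ≤ T ^ (1/2 : ℝ) ∧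
      (∀ α β : ℝ, α ≤ β → |α| ≤ T ^ (1/2 : ℝ) → |β| ≤ T ^ (1/2 : ℝ) → |pairCount T α β - (β - α) * SN T| ≤ D * (1 + (β - α) / Real.log T) * SN T) ∧
      (∀ α β : ℝ, 0 < α → α < β → β ≤ T ^ (1/2 : ℝ) →
        |pairCount T α β - SN T * ∫ u in α..β, pcDensity u| ≤ D * (1 + (β - α) / Real.log T) * SN T) ∧
      (∀ X : ℝ, 0 ≤ X → X ≤ c * Real.log T / Real.log (Real.log T) → |∫ β in (0:ℝ)..X, ErU T β| ≤ D * SN T) := by
  obtain ⟨c, C, hc0, hc1, hC, hU⟩ := hU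
  obtain ⟨C', hC', hN⟩ := hN
  obtain ⟨D, hD, h⟩ := int_law_U hc0 hc1 hC hC' hU hN
  have hl := Real.tendsto_log_atTop
  have h1 : ∀ᶠ T : ℝ in atTop, ∀ α β : ℝ, α ≤ β → |α| ≤ T ^ (1/2 : ℝ) → |β| ≤ T ^ (1/2 : ℝ) → |pairCount T α β - (β - α) * SN T| ≤ D * (1 + (β - α) / Real.log T) * SN T := by
    filter_upwards [h] with T hT using hT.1
  refine ⟨c, D + 1, hc0, hc1, by linarith, ?_⟩
  filter_upwards [h, windows_F hD.le h1, eventually_ge_atTop (3:ℝ), hl.eventually_ge_atTop (Real.exp 1), poly_small 1 1 (s := 1/2) (by norm_num)] with T g1 g2 g3 g4 g5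
  have hS := SN_pos (T := T) (by linarith)
  have hL := one_le_log g3
  refine ⟨g3, g4, by simpa using g5, ?_, g2, ?_⟩
  · intro α β hab hα hβ
    refine (g1.1 α β hab hα hβ).trans ?_
    have : 0 ≤ (β - α) / Real.log T := div_nonneg (by linarith) (by linarith)
    gcongr
    linarith
  · intro X hX0 hX
    refine (g1.2 X hX0 hX).trans ?_
    nlinarith

/-- bounded error, uniform -/
theorem bounded_final (hU : ∃ c C : ℝ, 0 < c ∧ c ≤ 1 ∧ 0 ≤ C ∧ ULaw c C) (hN : ∃ C : ℝ, 0 ≤ C ∧ NLaw C) :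
    ∃ C c T₀ : ℝ, 0 < C ∧ 0 < c ∧ ∀ T : ℝ, T₀ ≤ T →
    (∀ α β : ℝ, 0 < α → α < β → β ≤ Real.sqrt T →
      |pairCount T α β - (T * Real.log T / (2 * Real.pi)) * ∫ u in α..β, pcDensity u| ≤
        C * (1 + (β - α) / Real.log T) * (T * Real.log T / (2 * Real.pi))) ∧
    (∀ a X ℓ : ℝ, 0 < a → 0 < X → 0 < ℓ → a + X + ℓ ≤ c * Real.log T / Real.log (Real.log T) →
      |(∫ s in a..(a + X), pairCount T s (s + ℓ)) / X -
        (T * Real.log T / (2 * Real.pi)) * ((∫ s in a..(a + X), ∫ u in s..(s + ℓ),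
          (pcDensity u + ((∫ t in (0:ℝ)..T, Real.log (t / (2 * Real.pi)) ^ 2) / (T * Real.log T ^ 2) - 1))) / X)| ≤
        C * (min 1 ℓ / X) * (T * Real.log T / (2 * Real.pi))) := by
  obtain ⟨c, D, hc0, hc1, hD, h⟩ := package hU hN
  obtain ⟨T₀, hT₀⟩ := eventually_atTop.mp h
  have hCAT := CAT_pos
  refine ⟨2 * D + 1 + CAT, c, T₀, by positivity, hc0, fun T hT => ?_⟩
  obtain ⟨hT3, hLe, hLs, h1, h2, h3⟩ := hT₀ T hT
  have hT1 : 1 < T := by linarith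
  have hT0 : 0 < T := by linarith
  have hS := SN_pos hT1
  have hL0 : 0 < Real.log T := Real.log_pos hT1
  have hLL1 : 1 ≤ Real.log (Real.log T) := by
    have := Real.log_le_log (Real.exp_pos 1) hLe
    rwa [Real.log_exp] at this
  refine ⟨?_, ?_⟩
  · intro α β hα hαβ hβ
    rw [Real.sqrt_eq_rpow] at hβ
    refine (h2 α β hα hαβ hβ).trans ?_
    change D * (1 + (β - α) / Real.log T) * SN T ≤ (2 * D + 1 + CAT) * (1 + (β - α) / Real.log T) * SN T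
    have : 0 ≤ (β - α) / Real.log T := div_nonneg (by linarith) hL0.le
    gcongr
    linarith
  · intro a X ℓ ha hX hℓ hR
    rw [← AT_eq hT0]
    change |(∫ s in a..(a + X), pairCount T s (s + ℓ)) / X - SN T * ((∫ s in a..(a + X), ∫ u in s..(s + ℓ), (pcDensity u + (AT T - 1))) / X)| ≤ (2 * D + 1 + CAT) * (min 1 ℓ / X) * SN T
    have hRL : a + X + ℓ ≤ Real.log T := by
      refine hR.trans ?_
      calc c * Real.log T / Real.log (Real.log T) ≤ c * Real.log T := div_le_self (by positivity) hLL1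
        _ ≤ 1 * Real.log T := by gcongr
        _ = _ := one_mul _
    have k1 := mean_long hT3 h3 ha hX hℓ hR
    have k2 := mean_short hD.le hT3 h1 ha hX hℓ (hRL.trans hLs) (by linarith)
    set I := ∫ s in a..(a + X), pairCount T s (s + ℓ)
    set J := ∫ s in a..(a + X), ∫ u in s..(s + ℓ), (pcDensity u + (AT T - 1))
    have e : I / X - SN T * (J / X) = (I - SN T * J) / X := by ring
    rw [e, abs_div, abs_of_pos hX]
    have k3 : |I - SN T * J| ≤ (2 * D + 1 + CAT) * min 1 ℓ * SN T := by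
      rcases le_total ℓ 1 with h4 | h4
      · rw [min_eq_right h4]; exact k2
      · rw [min_eq_left h4, mul_one]
        refine k1.trans ?_
        nlinarith
    have e2 : (2 * D + 1 + CAT) * (min 1 ℓ / X) * SN T = ((2 * D + 1 + CAT) * min 1 ℓ * SN T) / X := by ring
    rw [e2]
    exact div_le_div_of_nonneg_right k3 hX.le

/-- number variance, uniform -/
theorem number_variance_final (hU : ∃ c C : ℝ, 0 < c ∧ c ≤ 1 ∧ 0 ≤ C ∧ ULaw c C) (hN : ∃ C : ℝ, 0 ≤ C ∧ NLaw C) :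
    ∃ C c T₀ : ℝ, 0 < C ∧ 0 < c ∧ ∀ T : ℝ, T₀ ≤ T → ∀ X : ℝ, 1 ≤ X → X ≤ c * Real.log T / Real.log (Real.log T) →
    |(∫ β in (0:ℝ)..X, pairCount T (-β) β) - (T * Real.log T / (2 * Real.pi)) *
        ((∫ t in (0:ℝ)..T, Real.log (t / (2 * Real.pi)) ^ 2) / (T * Real.log T ^ 2) * X ^ 2 + Real.log X / Real.pi ^ 2)| ≤
      C * (T * Real.log T / (2 * Real.pi)) := by
  obtain ⟨c, D, hc0, hc1, hD, h⟩ := package hU hN
  obtain ⟨T₀, hT₀⟩ := eventually_atTop.mp h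
  refine ⟨D + 5, c, T₀, by positivity, hc0, fun T hT X hX1 hX => ?_⟩
  obtain ⟨hT3, hLe, hLs, h1, h2, h3⟩ := hT₀ T hT
  rw [← AT_eq (by linarith)]
  exact nv_U hT3 hX1 (h3 X (by linarith) hX)

end Pool.Agent.Helper4.PU
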