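import Pool.Agent.Helper4.PU.Long
import Pool.Agent.Helper4.PC.NVf

namespace Pool.Agent.Helper4.PU

open Set MeasureTheory Filter Topology
open scoped Convolution
open Pool.Agent.Helper57.LH (sc sc_cont sc_even sc_integrable sc_nonneg sc_le_one sc_integral sc_eq sc_zero sc_decay sc_ae
  Gm Gm_nonneg Gm_even Gm_integral Gm_integrable Gm_cont Gm_le WP WP_mono WP_nonneg WP_add WP_smul WP_neg WP_sum gB gB_cont gB_le gB_nonneg one_le_log)
open Pool.Agent.Helper57.LS (cS cS_abs pred_kernel)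
open Pool.Agent.Helper57.PC
open Pool.Agent.Helper57.Zeta
open Pool.Agent.Helper4.PC

/-- deviation from the prediction with the exact mean square density -/
noncomputable def EU (T : ℝ) (φ : ℝ → ℝ) : ℝ := EE T φ - SN T * (AT T - 1) * ∫ u, φ u

lemma EU_add (T : ℝ) {φ ψ : ℝ → ℝ} (hφ : Integrable φ) (hψ : Integrable ψ) :
    EU T (fun u => φ u + ψ u) = EU T φ + EU T ψ := by
  unfold EU
  rw [EE_add T hφ hψ, integral_add hφ hψ]
  ring

lemma EU_smul (T c : ℝ) (φ : ℝ → ℝ) : EU T (fun u => c * φ u) = c * EU T φ := by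
  unfold EU
  rw [EE_smul, integral_const_mul]
  ring

lemma EU_sum (T : ℝ) {ι : Type*} (s : Finset ι) (φ : ι → ℝ → ℝ) (h : ∀ i ∈ s, Integrable (φ i)) :
    EU T (fun u => ∑ i ∈ s, φ i u) = ∑ i ∈ s, EU T (φ i) := by
  unfold EU
  rw [EE_sum T s φ h, integral_finsetSum s h, Finset.mul_sum, ← Finset.sum_sub_distrib]

lemma Gs_int_eq {B : ℝ} (hB : 0 < B) (v : ℝ) : ∫ u, Gm ((u - v) / B) = B := by
  rw [integral_sub_right_eq_self (fun u => Gm (u / B)) v, Measure.integral_comp_div (fun x => Gm x) B, abs_of_pos hB, smul_eq_mul, Gm_integral, mul_one]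

lemma EU_Gs {T B : ℝ} (hB : 1 ≤ B) (v : ℝ) :
    EU T (fun u => Gm ((u - v) / B)) = WP T (fun u => Gm ((u - v) / B)) - SN T * (AT T * B + cS (v / B) / B) := by
  unfold EU EE
  rw [pred_kernel hB v, Gs_int_eq (by linarith) v]
  ring

/-- EU in terms of the quadratic form -/
lemma EU_QQ {c K T : ℝ} (hP : Pack c K T) {A : ℝ → ℝ} (hA : Integrable A) {M : ℝ} (hW : Wb M (CT A)) (hM : M ≤ T ^ (3/10 : ℝ)) :
    |EU T (CT A)| ≤ |QQ (muT T) (nuT T) (CT A)| + SN T * |∫ ξ, A ξ * (1 - tri ξ)| + K * (SN T / Real.log T ^ 2) * (1 + |∫ s, CT A s|) := by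
  obtain ⟨hT3, -, -, -, hQQ⟩ := hP
  have hS := SN_pos (T := T) (by linarith)
  have h1 := hQQ (CT A) M _ (CT_cont hA) (CT_abs_le hA) hW hM
  unfold EU EE
  rw [pred_eq hA hW.int]
  set Q := QQ (muT T) (nuT T) (CT A)
  set I := ∫ ξ, A ξ * (1 - tri ξ)
  set N := ∫ u, CT A u
  have e : WP T (CT A) - SN T * (N + I) - SN T * (AT T - 1) * N = -(Q - (WP T (CT A) - SN T * AT T * N)) + Q + -(SN T * I) := by ring
  rw [e]
  refine (abs_add_le _ _).trans ?_
  have h2 := abs_add_le (-(Q - (WP T (CT A) - SN T * AT T * N))) Q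
  rw [abs_neg] at h2
  rw [abs_neg, abs_mul, abs_of_pos hS]
  linarith

theorem EU_dom {c₀ K T : ℝ} (hP : Pack c₀ K T) {A : ℝ → ℝ} (hA : Integrable A) {M : ℝ} (hW : Wb M (CT A)) (hM : M ≤ T ^ (3/10 : ℝ))
    {c c' b b' : ℝ} (hb : 9600 ≤ b) (hb' : 9600 ≤ b') (hbL : b ≤ c₀ * Real.log T) (hbL' : b' ≤ c₀ * Real.log T) (hc : 0 ≤ c) (hc' : 0 ≤ c')
    (h : ∀ ξ, |A ξ| ≤ c * gh b ξ + c' * gh b' ξ) :
    |EU T (CT A)| ≤ SN T * (c * (K + 1) / b + c' * (K + 1) / b') + K * (SN T / Real.log T ^ 2) * (1 + |∫ s, CT A s|) := by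
  have hP' := hP
  obtain ⟨hT3, -, -, hker, -⟩ := hP'
  have hS := SN_pos (T := T) (by linarith)
  have hb0 : 0 < b := by linarith
  have hb0' : 0 < b' := by linarith
  have hA' : Integrable (fun ξ => c * gh b ξ + c' * gh b' ξ) := ((gh_integrable hb0).const_mul c).add ((gh_integrable hb0').const_mul c')
  have h1 := EU_QQ hP hA hW hM
  have h2 := (hker b hb hbL).2
  have h3 := (hker b' hb' hbL').2
  have h4 := QQ_dom (muT T) (nuT T) hA hA' h
  have h5 : QQ (muT T) (nuT T) (CT (fun ξ => c * gh b ξ + c' * gh b' ξ)) = c * QQ (muT T) (nuT T) (gB b) + c' * QQ (muT T) (nuT T) (gB b') := by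
    rw [QQ_eq _ _ hA', ← CT_gh_fun hb0, ← CT_gh_fun hb0', QQ_eq _ _ (gh_integrable hb0), QQ_eq _ _ (gh_integrable hb0'),
      ← integral_const_mul, ← integral_const_mul, ← integral_add ((DD_int _ _ (gh_integrable hb0)).const_mul c) ((DD_int _ _ (gh_integrable hb0')).const_mul c')]
    congr 1; funext ξ; ring
  rw [h5] at h4
  have h6 := form_dom hA hA' h
  have h7 : ∫ ξ, (c * gh b ξ + c' * gh b' ξ) * (1 - tri ξ) ≤ c / b + c' / b' := by
    have i2 : Integrable (fun ξ => (c / b) * gh b ξ + (c' / b') * gh b' ξ) := ((gh_integrable hb0).const_mul _).add ((gh_integrable hb0').const_mul _)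
    have h8 : ∫ ξ, (c * gh b ξ + c' * gh b' ξ) * (1 - tri ξ) ≤ ∫ ξ, ((c / b) * gh b ξ + (c' / b') * gh b' ξ) := by
      apply integral_mono_of_nonneg
      · filter_upwards with ξ
        have := tri_le_one ξ
        have := gh_nonneg hb0.le ξ
        have := gh_nonneg hb0'.le ξ
        apply mul_nonneg (by positivity) (by linarith)
      · exact i2
      · filter_upwards with ξ
        have a1 := gh_form hb0 ξ
        have a2 := gh_form hb0' ξ
        calc (c * gh b ξ + c' * gh b' ξ) * (1 - tri ξ) = c * (gh b ξ * (1 - tri ξ)) + c' * (gh b' ξ * (1 - tri ξ)) := by ring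
          _ ≤ c * ((1 / b) * gh b ξ) + c' * ((1 / b') * gh b' ξ) := by gcongr
          _ = _ := by ring
    rw [integral_add ((gh_integrable hb0).const_mul _) ((gh_integrable hb0').const_mul _), integral_const_mul, integral_const_mul,
      gh_integral hb0, gh_integral hb0'] at h8
    have hG := Gm_zero_le_one
    have a1 : c / b * Gm 0 ≤ c / b * 1 := by gcongr
    have a2 : c' / b' * Gm 0 ≤ c' / b' * 1 := by gcongr
    linarith
  have h8 : |QQ (muT T) (nuT T) (CT A)| ≤ c * (K * (SN T / b)) + c' * (K * (SN T / b')) := by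
    refine h4.trans ?_
    gcongr
  have h9 : SN T * |∫ ξ, A ξ * (1 - tri ξ)| ≤ SN T * (c / b + c' / b') := by
    gcongr
    exact h6.trans h7
  refine h1.trans ?_
  have e : SN T * (c * (K + 1) / b + c' * (K + 1) / b') = (c * (K * (SN T / b)) + c' * (K * (SN T / b'))) + SN T * (c / b + c' / b') := by ring
  rw [e]
  linarith

/-- modulated kernels -/
lemma law_mod_U {c C T : ℝ} (hU : ∀ B v : ℝ, 9600 ≤ B → B ≤ c * Real.log T → |v| ≤ Real.log T →
      |WP T (fun u => Gm ((u - v) / B)) - SN T * (AT T * B + cS (v / B) / B)| ≤ C * (SN T * (1 / B ^ 2 + (1 + |v| / B) / Real.log T)))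
    (hC : 0 ≤ C) (hT : 3 ≤ T) {B : ℝ} (hB : 9600 ≤ B) (hBL : B ≤ c * Real.log T) {X : ℝ} (hX : 0 ≤ X) (hXL : X ≤ Real.log T) :
    |EU T (CT (Mk X B))| ≤ 2 * C * (SN T * (1 / B ^ 2 + (1 + X / B) / Real.log T)) := by
  have hB0 : 0 < B := by linarith
  have hL := one_le_log hT
  have hL0 : 0 < Real.log T := by linarith
  have hS := SN_pos (T := T) (by linarith)
  have e : CT (Mk X B) = fun u => (Gm ((u - 0) / B) + (-(1 / 2)) * Gm ((u - X) / B)) + (-(1 / 2)) * Gm ((u - -X) / B) := by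
    funext u
    rw [CT_Mk hB0, sub_zero, sub_neg_eq_add]
    ring
  have i0 : Integrable (fun u => Gm ((u - 0) / B) + (-(1 / 2)) * Gm ((u - X) / B)) :=
    (Gs_integrable hB0 0).add ((Gs_integrable hB0 X).const_mul _)
  have hB1 : 1 ≤ B := by linarith
  have h1 := hU B 0 hB hBL (by rw [abs_zero]; linarith)
  have h2 := hU B X hB hBL (by rw [abs_of_nonneg hX]; linarith)
  have h3 := hU B (-X) hB hBL (by rw [abs_neg, abs_of_nonneg hX]; linarith)
  rw [← EU_Gs hB1] at h1 h2 h3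
  rw [abs_zero] at h1
  rw [abs_neg] at h3
  rw [abs_of_nonneg hX] at h2 h3
  have h4 : C * (SN T * (1 / B ^ 2 + (1 + 0 / B) / Real.log T)) ≤ C * (SN T * (1 / B ^ 2 + (1 + X / B) / Real.log T)) := by
    gcongr
  rw [e, EU_add T i0 ((Gs_integrable hB0 (-X)).const_mul _),
    EU_add T (Gs_integrable hB0 0) ((Gs_integrable hB0 X).const_mul _), EU_smul, EU_smul]
  have a1 := abs_le.mp (h1.trans h4)
  have a2 := abs_le.mp h2
  have a3 := abs_le.mp h3
  have e2 : 2 * C * (SN T * (1 / B ^ 2 + (1 + X / B) / Real.log T)) = 2 * (C * (SN T * (1 / B ^ 2 + (1 + X / B) / Real.log T))) := by ring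
  rw [e2, abs_le]
  constructor <;> linarith [a1.1, a1.2, a2.1, a2.2, a3.1, a3.2]

lemma sum_inv {b₀ Δ : ℝ} (hb : 0 < b₀) (hΔ : 0 ≤ Δ) (n : ℕ) :
    ∑ j ∈ Finset.range n, Δ / (b₀ + (j + 1) * Δ) ≤ Real.log (b₀ + n * Δ) - Real.log b₀ := by
  induction n with
  | zero => simp
  | succ n ih =>
    rw [Finset.sum_range_succ]
    have hn : (0:ℝ) ≤ n := Nat.cast_nonneg n
    have h1 : 0 < b₀ + n * Δ := by positivity
    have h2 : 0 < b₀ + ((n:ℝ) + 1) * Δ := by positivity
    have h3 : Δ / (b₀ + ((n:ℝ) + 1) * Δ) ≤ Real.log (b₀ + ((n:ℝ) + 1) * Δ) - Real.log (b₀ + n * Δ) := by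
      rw [← Real.log_div h2.ne' h1.ne']
      have h4 := Real.one_sub_inv_le_log_of_pos (div_pos h2 h1)
      refine le_trans (le_of_eq ?_) h4
      rw [inv_div]
      field_simp
      ring
    push_cast
    linarith

lemma CT_AX_integral {B X : ℝ} (hB : 0 < B) (hX : 0 < X) : ∫ u, CT (AX B X) u = X ^ 2 := by
  have h : CT (AX B X) = (Tr X ⋆[ContinuousLinearMap.mul ℝ ℝ, volume] kk B) := by
    funext u
    rw [CT_AX hB hX, convolution_def]
    rfl
  rw [h, integral_convolution _ (Tr_integrable hX) (kk_integrable hB), kk_integral hB]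
  simp only [ContinuousLinearMap.mul_apply', mul_one]
  have h2 := CT_Tr hX 0
  rw [mul_zero, sc_zero, mul_one] at h2
  rw [← h2]
  unfold CT
  congr 1; funext u
  simp

lemma Tr_integral {X : ℝ} (hX : 0 < X) : ∫ u, Tr X u = X ^ 2 := by
  have h2 := CT_Tr hX 0
  rw [mul_zero, sc_zero, mul_one] at h2
  rw [← h2]
  unfold CT
  congr 1; funext u
  simp

lemma CT_Mk_integral {X B : ℝ} (hB : 0 < B) : ∫ u, CT (Mk X B) u = 0 := by
  have h : CT (Mk X B) = fun u => Gm ((u - 0) / B) - (1 / 2) * (Gm ((u - X) / B) + Gm ((u - -X) / B)) := by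
    funext u
    rw [CT_Mk hB, sub_zero, sub_neg_eq_add]
  have i2 : Integrable (fun u => (1 / 2) * (Gm ((u - X) / B) + Gm ((u - -X) / B))) :=
    ((Gs_integrable hB X).add (Gs_integrable hB (-X))).const_mul _
  rw [h]
  simp only
  rw [integral_sub (Gs_integrable hB 0) i2, integral_const_mul,
    integral_add (Gs_integrable hB X) (Gs_integrable hB (-X)), Gs_int_eq hB, Gs_int_eq hB, Gs_int_eq hB]
  ring

end Pool.Agent.Helper4.PU
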