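import Pool.Agent.Helper4.PU.NVU

namespace Pool.Agent.Helper4.PU

open Set MeasureTheory Filter Topology
open scoped Convolution
open Pool.Agent.Helper57.LH (sc sc_cont sc_even sc_integrable sc_nonneg sc_le_one sc_integral sc_eq sc_zero sc_decay sc_ae
  Gm Gm_nonneg Gm_even Gm_integral Gm_integrable Gm_cont Gm_le WP WP_mono WP_nonneg WP_add WP_smul WP_neg WP_sum gB gB_cont gB_le gB_nonneg one_le_log)
open Pool.Agent.Helper57.LS (cS cS_abs pred_kernel)
open Pool.Agent.Helper57.PC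
open Pool.Agent.Helper57.Zeta
open Pool.Agent.Helper4.PC

noncomputable def CM : ℝ := 4 * (2 * 19200 * W0 / g0) + 4 * W0 ^ 2

lemma CM_nonneg : 0 ≤ CM := by
  have := W0_pos
  have := g0_pos
  unfold CM; positivity

/-- constant in the law for the smoothed triangle -/
noncomputable def CSm (C K : ℝ) : ℝ := 6 * C + ((1 + 8 * CR 19200 / 19200) * (K + 1) / 9600 + 32 * (K + 1)) + 2 * K

/-- The law for the smoothed triangle. -/
theorem smooth_law_U {c₀ C K T : ℝ} (hc1 : c₀ ≤ 1) (hC : 0 ≤ C) (hK : 0 ≤ K) (hP : Pack c₀ K T)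
    (hU : ∀ B v : ℝ, 9600 ≤ B → B ≤ c₀ * Real.log T → |v| ≤ Real.log T →
      |WP T (fun u => Gm ((u - v) / B)) - SN T * (AT T * B + cS (v / B) / B)| ≤ C * (SN T * (1 / B ^ 2 + (1 + |v| / B) / Real.log T)))
    (hCM : CM * Real.log T ^ 4 ≤ T ^ (3/10 : ℝ)) {X : ℝ} (hX : 19200 < X) (hXL : X ≤ c₀ * Real.log T) (hXl : X * Real.log X ≤ Real.log T) :
    |EU T (CT (AX (2 * 19200) X))| ≤ SN T * CSm C K := by
  have hP' := hP
  obtain ⟨hT3, -, -, -, -⟩ := hP'
  have hT1 : 1 < T := by linarith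
  have hS := SN_pos hT1
  have hLog := one_le_log hT3
  have hL0 : 0 < Real.log T := by linarith
  set b₀ : ℝ := 19200 with hb₀
  have hb0 : 0 < b₀ := by rw [hb₀]; norm_num
  have hX0 : 0 < X := by linarith
  have hX1 : 1 ≤ X := by rw [hb₀] at hX; linarith
  have hXb : b₀ ≤ X := hX.le
  have hXT : X ≤ Real.log T := by nlinarith
  have hCR := CR_nonneg b₀
  have hpi := Real.pi_pos
  have hW0 := W0_pos
  have hg0 := g0_pos
  have hpi2 : 6 / Real.pi ^ 2 ≤ 1 := by
    rw [div_le_one (by positivity)]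
    nlinarith [Real.pi_gt_three]
  obtain ⟨n, hn⟩ := exists_nat_gt (48 * (X - b₀) ^ 2 / b₀)
  have hn0 : (0:ℝ) < n := lt_of_le_of_lt (by positivity) hn
  set Δ := (X - b₀) / n with hΔ
  have hΔ0 : 0 ≤ Δ := div_nonneg (by linarith) hn0.le
  have hnΔ : b₀ + n * Δ = X := by rw [hΔ]; field_simp; ring
  have hbj : ∀ j : ℕ, b₀ ≤ b₀ + ((j:ℝ) + 1) * Δ := by
    intro j
    have : (0:ℝ) ≤ j := Nat.cast_nonneg j
    nlinarith
  have hbj0 : ∀ j : ℕ, 0 < b₀ + ((j:ℝ) + 1) * Δ := fun j => lt_of_lt_of_le hb0 (hbj j)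
  have hbjX : ∀ j ∈ Finset.range n, b₀ + ((j:ℝ) + 1) * Δ ≤ X := by
    intro j hj
    rw [Finset.mem_range] at hj
    have : (j:ℝ) + 1 ≤ n := by exact_mod_cast hj
    rw [← hnΔ]
    gcongr
  -- the two parts
  set c : ℝ := 6 / Real.pi ^ 2 with hc
  have hc0 : 0 < c := by rw [hc]; positivity
  set A1 : ℝ → ℝ := fun ξ => ∑ j ∈ Finset.range n, (c * Δ) * Mk X (b₀ + (j + 1) * Δ) ξ with hA1
  set A2 : ℝ → ℝ := fun ξ => AX (2 * b₀) X ξ - A1 ξ with hA2
  have iM : ∀ j ∈ Finset.range n, Integrable (fun ξ => (c * Δ) * Mk X (b₀ + (j + 1) * Δ) ξ) := fun j _ => (Mk_integrable (hbj0 j)).const_mul _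
  have i1 : Integrable A1 := integrable_finsetSum _ iM
  have iX : Integrable (AX (2 * b₀) X) := AX_integrable (by positivity) hX0
  have i2 : Integrable A2 := iX.sub i1
  have eA1 : ∀ ξ, A1 ξ = c * ((1 - Real.cos (2 * Real.pi * X * ξ)) * An b₀ Δ n ξ) := by
    intro ξ
    rw [hA1]
    simp only
    unfold An Mk
    rw [Finset.mul_sum, Finset.mul_sum]
    apply Finset.sum_congr rfl
    intro j _
    ring
  have hC1 : CT A1 = fun u => ∑ j ∈ Finset.range n, (c * Δ) * CT (Mk X (b₀ + (j + 1) * Δ)) u := by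
    funext u
    rw [hA1, CT_sum _ _ iM]
    apply Finset.sum_congr rfl
    intro j _
    rw [CT_const_mul]
  have iC1 : Integrable (CT A1) := by
    rw [hC1]
    exact integrable_finsetSum _ fun j _ => (CT_Mk_integrable (hbj0 j)).const_mul _
  have hsplit : CT (AX (2 * b₀) X) = fun u => CT A1 u + CT A2 u := by
    funext u
    rw [← CT_add i1 i2]
    congr 1
    funext ξ
    rw [hA2]; ring
  have hCA2 : CT A2 = fun u => CT (AX (2 * b₀) X) u - CT A1 u := by
    funext u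
    rw [hsplit]; ring
  have iCX := CT_AX_integrable (B := 2 * b₀) (by positivity) hX0
  -- weight of the second part
  have hWX : Wb (4 * X ^ 3 * ((2 * b₀) * W0 / g0)) (CT (AX (2 * b₀) X)) := Wb_CT_AX (by rw [hb₀]; norm_num) hX1
  have hW1 : Wb (∑ j ∈ Finset.range n, |c * Δ| * (2 * om X * ((b₀ + (j + 1) * Δ) ^ 2 * W0 ^ 2))) (CT A1) := by
    rw [hC1]
    apply Wb_sum
    intro j _
    exact (Wb_CT_Mk (le_trans (by rw [hb₀]; norm_num) (hbj j))).smul _
  have hW1b : ∑ j ∈ Finset.range n, |c * Δ| * (2 * om X * ((b₀ + (j + 1) * Δ) ^ 2 * W0 ^ 2)) ≤ 4 * X ^ 4 * W0 ^ 2 := by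
    have hom : om X ≤ 2 * X := by
      unfold om
      rw [abs_of_pos hX0]
      have : Real.sqrt X ≤ X := by
        rw [Real.sqrt_le_left hX0.le]
        nlinarith
      linarith
    have hom0 := om_pos X
    calc ∑ j ∈ Finset.range n, |c * Δ| * (2 * om X * ((b₀ + (j + 1) * Δ) ^ 2 * W0 ^ 2))
        ≤ ∑ j ∈ Finset.range n, Δ * (2 * (2 * X) * (X ^ 2 * W0 ^ 2)) := by
          apply Finset.sum_le_sum
          intro j hj
          have h1 : |c * Δ| ≤ Δ := by
            rw [abs_of_nonneg (by positivity)]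
            calc c * Δ ≤ 1 * Δ := by gcongr
              _ = Δ := one_mul _
          have h2 := hbjX j hj
          have h3 := hbj0 j
          gcongr
      _ = (n * Δ) * (4 * X ^ 3 * W0 ^ 2) := by
          rw [Finset.sum_const, Finset.card_range, nsmul_eq_mul]; ring
      _ ≤ X * (4 * X ^ 3 * W0 ^ 2) := by
          gcongr
          linarith
      _ = _ := by ring
  have hW2 : Wb (CM * X ^ 4) (CT A2) := by
    rw [hCA2]
    refine (hWX.sub hW1).mono ?_
    have h1 : 4 * X ^ 3 * ((2 * b₀) * W0 / g0) ≤ 4 * X ^ 4 * ((2 * b₀) * W0 / g0) := by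
      gcongr
      norm_num
    unfold CM
    rw [← hb₀]
    have e : (4 * (2 * b₀ * W0 / g0) + 4 * W0 ^ 2) * X ^ 4 = 4 * X ^ 4 * ((2 * b₀) * W0 / g0) + 4 * X ^ 4 * W0 ^ 2 := by ring
    rw [e]
    linarith
  have hM2 : CM * X ^ 4 ≤ T ^ (3/10 : ℝ) := by
    refine le_trans ?_ hCM
    have := CM_nonneg
    gcongr
  -- the integral
  have hI1 : ∫ u, CT A1 u = 0 := by
    rw [hC1]
    simp only
    rw [integral_finsetSum _ (fun j _ => (CT_Mk_integrable (hbj0 j)).const_mul _)]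
    apply Finset.sum_eq_zero
    intro j _
    rw [integral_const_mul, CT_Mk_integral (hbj0 j), mul_zero]
  have hI2 : ∫ u, CT A2 u = X ^ 2 := by
    rw [hCA2]
    simp only
    rw [integral_sub iCX iC1, hI1, CT_AX_integral (by positivity) hX0, sub_zero]
  -- domination of the second part
  have hdom : ∀ ξ, |A2 ξ| ≤ (1 + 8 * CR b₀ / b₀) * gh (b₀ / 2) ξ + (16 * X) * gh (X / 2) ξ := by
    intro ξ
    have e1 : A2 ξ = Rm b₀ X ξ + c * ((1 - Real.cos (2 * Real.pi * X * ξ)) * (SX b₀ X ξ - An b₀ Δ n ξ)) := by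
      rw [hA2]
      simp only
      rw [eA1]
      unfold Rm
      ring
    have h1 := Rm_bound hb0 hXb ξ
    have h2 : |c * ((1 - Real.cos (2 * Real.pi * X * ξ)) * (SX b₀ X ξ - An b₀ Δ n ξ))| ≤ gh (b₀ / 2) ξ := by
      have hg := gh_nonneg (show 0 ≤ b₀ / 2 by positivity) ξ
      rcases le_or_gt (1 / b₀) |ξ| with h3 | h3
      · rw [SX_zero_of hb0 hXb h3, An_zero_of hb0 hΔ0 n h3]
        simpa using hg
      · have h4 := An_close hb0 hΔ0 n ξ
        rw [hnΔ] at h4
        have h5 : (n:ℝ) * (3 * Δ ^ 2) ≤ b₀ / 16 := by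
          rw [hΔ]
          have : (n:ℝ) * (3 * ((X - b₀) / n) ^ 2) = 3 * (X - b₀) ^ 2 / n := by field_simp
          rw [this, div_le_iff₀ hn0]
          rw [div_lt_iff₀ hb0] at hn
          nlinarith
        have h6 := gh_lower (B := b₀ / 2) (ξ := ξ) (by positivity) (by rw [mul_div_cancel₀ _ (two_ne_zero)]; exact h3.le)
        have h7 : |1 - Real.cos (2 * Real.pi * X * ξ)| ≤ 2 := by
          have := Real.cos_le_one (2 * Real.pi * X * ξ)
          have := Real.neg_one_le_cos (2 * Real.pi * X * ξ)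
          rw [abs_le]; constructor <;> linarith
        rw [abs_mul, abs_mul, abs_of_pos hc0]
        calc c * (|1 - Real.cos (2 * Real.pi * X * ξ)| * |SX b₀ X ξ - An b₀ Δ n ξ|) ≤ 1 * (2 * (b₀ / 16)) := by
              gcongr
              exact h4.trans h5
          _ = b₀ / 2 / 4 := by ring
          _ ≤ _ := h6
    rw [e1]
    refine (abs_add_le _ _).trans ?_
    linarith
  have hE2 := EU_dom hP i2 hW2 hM2 (c := 1 + 8 * CR b₀ / b₀) (c' := 16 * X) (b := b₀ / 2) (b' := X / 2) (by rw [hb₀]; norm_num)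
    (by rw [hb₀] at hXb; linarith) (by linarith) (by linarith) (by positivity) (by positivity) hdom
  rw [hI2, abs_of_nonneg (sq_nonneg X)] at hE2
  have hK2 : K * (SN T / Real.log T ^ 2) * (1 + X ^ 2) ≤ SN T * (2 * K) := by
    have a1 : (SN T / Real.log T ^ 2) * (1 + X ^ 2) ≤ 2 * SN T := by
      rw [div_mul_eq_mul_div, div_le_iff₀ (by positivity)]
      have a2 : 1 + X ^ 2 ≤ 2 * Real.log T ^ 2 := by nlinarith
      calc SN T * (1 + X ^ 2) ≤ SN T * (2 * Real.log T ^ 2) := by gcongr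
        _ = _ := by ring
    calc K * (SN T / Real.log T ^ 2) * (1 + X ^ 2) = K * ((SN T / Real.log T ^ 2) * (1 + X ^ 2)) := by ring
      _ ≤ K * (2 * SN T) := by gcongr
      _ = _ := by ring
  have hE1 : ∀ j ∈ Finset.range n, |EU T (CT (Mk X (b₀ + (j + 1) * Δ)))| ≤
      2 * C * (SN T * (1 / (b₀ + (j + 1) * Δ) ^ 2 + (1 + X / (b₀ + (j + 1) * Δ)) / Real.log T)) := by
    intro j hj
    exact law_mod_U hU hC hT3 (le_trans (by rw [hb₀]; norm_num) (hbj j)) ((hbjX j hj).trans hXL) hX0.le hXT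
  rw [hsplit, EU_add T iC1 hW2.int]
  refine (abs_add_le _ _).trans ?_
  have h3 : |EU T (CT A1)| ≤ SN T * (6 * C) := by
    rw [hC1, EU_sum T _ _ (fun j _ => (CT_Mk_integrable (hbj0 j)).const_mul _)]
    refine (Finset.abs_sum_le_sum_abs _ _).trans ?_
    calc ∑ j ∈ Finset.range n, |EU T (fun u => (c * Δ) * CT (Mk X (b₀ + (j + 1) * Δ)) u)|
        ≤ ∑ j ∈ Finset.range n, ((SN T * (2 * C)) * (Δ / (b₀ + (j + 1) * Δ) ^ 2) + (SN T * (2 * C) / Real.log T) * Δ +
            (SN T * (2 * C) * X / Real.log T) * (Δ / (b₀ + (j + 1) * Δ))) := by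
          apply Finset.sum_le_sum
          intro j hj
          rw [EU_smul, abs_mul, abs_of_nonneg (by positivity)]
          have h4 := hE1 j hj
          have h5 := hbj0 j
          calc c * Δ * |EU T (CT (Mk X (b₀ + (j + 1) * Δ)))| ≤ 1 * Δ * (2 * C * (SN T * (1 / (b₀ + (j + 1) * Δ) ^ 2 + (1 + X / (b₀ + (j + 1) * Δ)) / Real.log T))) := by gcongr
            _ = _ := by ring
      _ = (SN T * (2 * C)) * (∑ j ∈ Finset.range n, (Δ / (b₀ + (j + 1) * Δ) ^ 2)) + (SN T * (2 * C) / Real.log T) * (n * Δ) +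
            (SN T * (2 * C) * X / Real.log T) * ∑ j ∈ Finset.range n, (Δ / (b₀ + (j + 1) * Δ)) := by
          rw [Finset.sum_add_distrib, Finset.sum_add_distrib, ← Finset.mul_sum, ← Finset.mul_sum, ← Finset.mul_sum, Finset.sum_const, Finset.card_range, nsmul_eq_mul]
      _ ≤ (SN T * (2 * C)) * 1 + (SN T * (2 * C) / Real.log T) * Real.log T +
            (SN T * (2 * C) * X / Real.log T) * Real.log X := by
          have h5 := sum_inv_sq hb0 hΔ0 n
          have h6 : 0 ≤ 1 / (b₀ + n * Δ) := by rw [hnΔ]; positivity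
          have h7 : 1 / b₀ ≤ 1 := by rw [hb₀]; norm_num
          have h8 := sum_inv hb0 hΔ0 n
          rw [hnΔ] at h8
          have h9 : 0 ≤ Real.log b₀ := Real.log_nonneg (by rw [hb₀]; norm_num)
          gcongr
          · linarith
          · linarith
          · linarith
      _ = (SN T * (2 * C)) * (2 + X * Real.log X / Real.log T) := by field_simp; ring
      _ ≤ (SN T * (2 * C)) * (2 + 1) := by
          have : X * Real.log X / Real.log T ≤ 1 := by rw [div_le_one hL0]; exact hXl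
          gcongr
      _ = _ := by ring
  have h4 : (1 + 8 * CR b₀ / b₀) * (K + 1) / (b₀ / 2) + 16 * X * (K + 1) / (X / 2) = (1 + 8 * CR b₀ / b₀) * (K + 1) / 9600 + 32 * (K + 1) := by
    have e1 : b₀ / 2 = 9600 := by rw [hb₀]; norm_num
    have e2 : 16 * X * (K + 1) / (X / 2) = 32 * (K + 1) := by field_simp; ring
    rw [e1, e2]
  rw [h4] at hE2
  have h5 : SN T * CSm C K = SN T * (6 * C) + (SN T * ((1 + 8 * CR b₀ / b₀) * (K + 1) / 9600 + 32 * (K + 1)) + SN T * (2 * K)) := by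
    unfold CSm
    rw [← hb₀]
    ring
  rw [h5]
  linarith

end Pool.Agent.Helper4.PU
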